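import Mathlib
import Pool.Agent.W437.HD.Block

/-!
# Forms killed by a Lie algebra which contains classical Lie algebras, with multiplicities
-/

set_option linter.unusedSectionVars false

namespace Pool.Agent.W437.HP

open Matrix Pool.Agent.H204R3.SP Pool.Agent.H204R3.GP Pool.Agent.W437.HC Pool.Agent.W437.HD

variable {B : Type*} [Fintype B] [DecidableEq B] {D : Matrix B B ℂ}
  {R : Type} [Fintype R] [DecidableEq R] {Q : Type*} [Fintype Q] [DecidableEq Q]
  {cls : R → Q} {inv : R → R} {jj : R → ℂ} {𝒜 : Type} [Fintype 𝒜] [DecidableEq 𝒜]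

/-- The change of coordinates of forms which depends on the position. -/
def TmM {κ : Type*} [Fintype κ] [DecidableEq κ] (E : κ → Matrix R B ℂ) :
    ((κ → R) → ℂ) →ₗ[ℂ] ((κ → B) → ℂ) where
  toFun F := fun I => ∑ X : κ → R, F X * ∏ k, E k (X k) (I k)
  map_add' F G := by
    funext I
    simp only [Pi.add_apply, add_mul, Finset.sum_add_distrib]
  map_smul' a F := by
    funext I
    simp only [Pi.smul_apply, smul_eq_mul, mul_assoc, Finset.mul_sum, RingHom.id_apply]

theorem TmM_apply {κ : Type*} [Fintype κ] [DecidableEq κ] (E : κ → Matrix R B ℂ)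
    (F : (κ → R) → ℂ) (I : κ → B) : TmM E F I = ∑ X : κ → R, F X * ∏ k, E k (X k) (I k) := rfl

theorem TmM_coef {κ : Type*} [Fintype κ] [DecidableEq κ] {co : 𝒜 → Matrix R B ℂ}
    {ev : 𝒜 → R → B → ℂ} (hid : ∀ i : B, (Pi.single i 1 : B → ℂ) = ∑ a, ∑ r, co a r i • ev a r)
    (c : (κ → B) → ℂ) :
    ∑ α : κ → 𝒜, TmM (fun k => co (α k)) (fun X : κ → R => evalF c (fun k => ev (α k) (X k))) =
      c := by
  funext I
  have h1 : (fun k => Pi.single (I k) 1 : κ → B → ℂ) = fun k => ∑ p : 𝒜 × R,
      co p.1 p.2 (I k) • ev p.1 p.2 := by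
    funext k
    rw [hid (I k), Fintype.sum_prod_type]
  rw [Finset.sum_apply]
  simp only [TmM_apply]
  rw [← evalF_single c I, h1, ← evalM_apply, MultilinearMap.map_sum,
    ← (Equiv.arrowProdEquivProdArrow κ (fun _ => 𝒜) (fun _ => R)).symm.sum_comp,
    Fintype.sum_prod_type]
  refine Finset.sum_congr rfl fun α _ => Finset.sum_congr rfl fun X _ => ?_
  rw [MultilinearMap.map_smul_univ, evalM_apply, smul_eq_mul, mul_comm]
  rfl

theorem TmM_matG {m : ℕ} (e : Equiv.Perm (Fin m × Fin 2)) (cc : Fin m → Q)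
    (E : Fin m × Fin 2 → Matrix R B ℂ) :
    TmM E (matG cls inv jj e cc) = fun I => ∏ s, bilc
      ((E (e (s, 0)))ᵀ * (Matrix.of fun x y => if cls x = cc s then JJ inv jj x y else 0) *
        E (e (s, 1))) ![I (e (s, 0)), I (e (s, 1))] := by
  funext I
  rw [TmM_apply]
  have h1 : ∀ X : Fin m × Fin 2 → R,
      matG cls inv jj e cc X * ∏ k, E k (X k) (I k) =
      ∏ s, ((if cls (X (e (s, 0))) = cc s then JJ inv jj (X (e (s, 0))) (X (e (s, 1))) else 0) *
        (E (e (s, 0)) (X (e (s, 0))) (I (e (s, 0))) *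
          E (e (s, 1)) (X (e (s, 1))) (I (e (s, 1))))) := by
    intro X
    rw [← Equiv.prod_comp e (fun k => E k (X k) (I k)), Fintype.prod_prod_type]
    simp only [matG, Fin.prod_univ_two]
    rw [← Finset.prod_mul_distrib]
  rw [Finset.sum_congr rfl (fun X _ => h1 X)]
  rw [sum_match e (fun s x y => (if cls x = cc s then JJ inv jj x y else 0) *
        (E (e (s, 0)) x (I (e (s, 0))) * E (e (s, 1)) y (I (e (s, 1)))))]
  refine Finset.prod_congr rfl fun s _ => ?_
  simp only [bilc, Matrix.mul_apply, Matrix.transpose_apply, Matrix.of_apply, Finset.sum_mul,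
    Matrix.cons_val_zero, Matrix.cons_val_one]
  rw [Finset.sum_comm]
  refine Finset.sum_congr rfl fun y _ => Finset.sum_congr rfl fun x _ => ?_
  ring

/-- If the Lie algebra contains the classical Lie algebras of blocks which act with multiplicities,
then the rational forms that it kills are linear combinations of products over matchings of
rational forms in two variables that it kills. -/
theorem mem_MS_of_mult {cl : 𝒜 → Q} {co : 𝒜 → Matrix R B ℂ} {ev : 𝒜 → R → B → ℂ}
    (hinv : ∀ x, inv (inv x) = x) (hjj : ∀ x, jj (inv x) = -jj x) (hj0 : ∀ x, jj x ≠ 0)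
    (hcls : ∀ x y, cls x = cls y → cls (inv x) = cls (inv y))
    (hid : ∀ i : B, (Pi.single i 1 : B → ℂ) = ∑ a, ∑ r, co a r i • ev a r)
    (hev : ∀ a r, cls r ≠ cl a → ev a r = 0)
    (hlift : ∀ b d, cls (inv b) = cls d → ∃ X ∈ lieM D ℂ, ∀ a r,
      X *ᵥ ev a r = JJ inv jj d r • ev a b + JJ inv jj b r • ev a d)
    (hbil : ∀ (a a' : 𝒜) (q : Q), ∀ Y ∈ lieM D ℂ,
      Yᵀ * ((co a)ᵀ * (Matrix.of fun x y => if cls x = q then JJ inv jj x y else 0) * co a') +
        ((co a)ᵀ * (Matrix.of fun x y => if cls x = q then JJ inv jj x y else 0) * co a') * Y = 0)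
    {m : ℕ} (c : (Fin m × Fin 2 → B) → ℚ) (hc : IsH D c) : c ∈ MS D m := by
  rw [MS_eq]
  refine Pool.Agent.W437.HK.descent (k := ℂ) _ _ ?_
  change cst ℂ c ∈ _
  rw [← TmM_coef hid (cst ℂ c)]
  refine Submodule.sum_mem _ fun α _ => ?_
  -- the coefficients in the new basis
  obtain ⟨ce, hce⟩ : ∃ ce : (Fin m × Fin 2 → R) → ℂ,
    ce = fun X => evalF (cst ℂ c) (fun k => ev (α k) (X k)) := ⟨_, rfl⟩
  rw [← hce]
  have h2 : ce ∈ MatG cls inv jj (Fin m × Fin 2) m := by
    refine fftG (cls := cls) (inv := inv) (jj := jj) hinv hjj hj0 hcls m (Fin m × Fin 2)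
      (by simp [mul_comm]) (fun k => cl (α k)) ⟨?_, ?_⟩
    · intro b d hbd I
      obtain ⟨X, hX, hXe⟩ := hlift b d hbd
      have h2 := lieM_kills D hX hc
      have h3 := evalF_act X (cst ℂ c) (fun k => ev (α k) (I k))
      rw [h2, evalF_zero] at h3
      rw [h3]
      refine Finset.sum_congr rfl fun l _ => ?_
      rw [hXe, evalF_update_add, evalF_update_smul, evalF_update_smul]
      have h5 : ∀ z : R, Function.update (fun k => ev (α k) (I k)) l (ev (α l) z) =
          fun k => ev (α k) (Function.update I l z k) := by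
        intro z
        funext k
        by_cases hk : k = l
        · subst hk
          rw [Function.update_self, Function.update_self]
        · rw [Function.update_of_ne hk, Function.update_of_ne hk]
      rw [h5, h5, hce]
      ring
    · intro I hI k
      by_contra hk
      apply hI
      rw [hce]
      have h3 : (fun k => ev (α k) (I k)) = Function.update (fun k => ev (α k) (I k)) k
          ((0 : ℂ) • (0 : B → ℂ)) := by
        rw [zero_smul, ← hev _ _ hk, Function.update_eq_self]
      change evalF (cst ℂ c) (fun k => ev (α k) (I k)) = 0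
      rw [h3, evalF_update_smul, zero_mul]
  have h3 : TmM (fun k => co (α k)) ce ∈
      (MatG cls inv jj (Fin m × Fin 2) m).map (TmM (fun k => co (α k))) :=
    Submodule.mem_map_of_mem h2
  unfold MatG at h3
  rw [Submodule.map_span] at h3
  refine Submodule.span_le.2 ?_ h3
  rintro _ ⟨_, ⟨e, cc, rfl⟩, rfl⟩
  rw [SetLike.mem_coe, TmM_matG]
  refine prod_mem_span e (fun s => bilc
      ((co (α (e (s, 0))))ᵀ * (Matrix.of fun x y => if cls x = cc s then JJ inv jj x y else 0) *
        co (α (e (s, 1))))) fun s => ?_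
  refine mem_span_isH fun X hX => ?_
  funext I
  rw [act_bilc, Pi.zero_apply, hbil _ _ _ _ (cast_mem D hX), Matrix.zero_apply]

end Pool.Agent.W437.HP
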