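import Mathlib

/-!
# Lie algebras which act as the full symplectic Lie algebra on two spaces
-/

set_option linter.unusedSectionVars false

namespace Pool.Agent.W437.HP

open Module

section one

variable {S : Type*} [AddCommGroup S] [Module ℂ S] (w : S →ₗ[ℂ] S →ₗ[ℂ] ℂ)

/-- The endomorphism given by the product of two vectors. -/
def EE (x y : S) : Module.End ℂ S := (w y).smulRight x + (w x).smulRight y

theorem EE_apply (x y u : S) : EE w x y u = w y u • x + w x u • y := rfl

theorem EE_comm (x y : S) : EE w x y = EE w y x := by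
  unfold EE
  rw [add_comm]

theorem EE_add_left (x x' y : S) : EE w (x + x') y = EE w x y + EE w x' y := by
  ext u
  simp only [EE_apply, LinearMap.add_apply, map_add, smul_add, add_smul]
  abel

theorem EE_smul_left (a : ℂ) (x y : S) : EE w (a • x) y = a • EE w x y := by
  ext u
  simp only [EE_apply, LinearMap.smul_apply, map_smul, smul_add, smul_eq_mul, mul_smul]
  rw [smul_comm]

theorem EE_add_right (x y y' : S) : EE w x (y + y') = EE w x y + EE w x y' := by
  rw [EE_comm, EE_add_left, EE_comm w y, EE_comm w y']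

theorem EE_smul_right (a : ℂ) (x y : S) : EE w x (a • y) = a • EE w x y := by
  rw [EE_comm, EE_smul_left, EE_comm w y]

theorem EE_zero_left (y : S) : EE w 0 y = 0 := by
  have h := EE_smul_left w 0 0 y
  rwa [zero_smul, zero_smul] at h

theorem EE_zero_right (y : S) : EE w y 0 = 0 := by
  rw [EE_comm, EE_zero_left]

theorem EE_neg_left (x y : S) : EE w (-x) y = -EE w x y := by
  have h := EE_smul_left w (-1) x y
  rwa [neg_one_smul, neg_one_smul] at h

theorem EE_sub_left (x x' y : S) : EE w (x - x') y = EE w x y - EE w x' y := by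
  rw [sub_eq_add_neg, EE_add_left, EE_neg_left, sub_eq_add_neg]

/-- The endomorphisms which preserve the form. -/
def IsSp (A : Module.End ℂ S) : Prop := ∀ x y, w (A x) y = -w x (A y)

variable {w}

theorem EE_bracket {A : Module.End ℂ S} (hA : IsSp w A) (x y : S) :
    A * EE w x y - EE w x y * A = EE w (A x) y + EE w x (A y) := by
  ext u
  simp only [EE_apply, LinearMap.add_apply, LinearMap.sub_apply, Module.End.mul_apply, map_add,
    map_smul, hA x u, hA y u, neg_smul]
  abel

variable (hw : ∀ x, w x x = 0) (hn : ∀ x, (∀ y, w x y = 0) → x = 0)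

include hw in
theorem w_anti (x y : S) : w x y = -w y x := by
  have h := hw (x + y)
  simp only [map_add, LinearMap.add_apply, hw, zero_add, add_zero] at h
  exact eq_neg_of_add_eq_zero_right h

include hn in
theorem exists_pair {x : S} (hx : x ≠ 0) : ∃ y, w x y = 1 := by
  have h1 : ∃ y, w x y ≠ 0 := by
    by_contra h
    push Not at h
    exact hx (hn x h)
  obtain ⟨y, hy⟩ := h1
  exact ⟨(w x y)⁻¹ • y, by rw [map_smul, smul_eq_mul, inv_mul_cancel₀ hy]⟩

include hw hn in
theorem EE_eq_zero {x t : S} (ht : t ≠ 0) (h : EE w x t = 0) : x = 0 := by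
  obtain ⟨u, hu⟩ := exists_pair hn ht
  have h1 : EE w x t u = 0 := by
    rw [h]
    rfl
  rw [EE_apply, hu, one_smul] at h1
  have h2 : x = -w x u • t := by
    rw [neg_smul]
    exact eq_neg_of_add_eq_zero_left h1
  have h3 : EE w x t u = 0 := by
    rw [h]
    rfl
  have h4 : w x u = 0 := by
    rw [h2] at h1
    rw [map_smul, LinearMap.smul_apply, hu, smul_eq_mul, mul_one, ← add_smul] at h1
    have h5 := (smul_eq_zero.1 h1).resolve_right ht
    have h6 : (2 : ℂ) * w x u = 0 := by linear_combination -h5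
    exact (mul_eq_zero.1 h6).resolve_left two_ne_zero
  rw [h4, neg_zero, zero_smul] at h2
  exact h2

/-- The elements of the Lie algebra are linear combinations of products of vectors. -/
theorem mem_span_EE [FiniteDimensional ℂ S] (hw : ∀ x, w x x = 0)
    (hn : ∀ x, (∀ y, w x y = 0) → x = 0) {A : Module.End ℂ S}
    (hA : IsSp w A) : A ∈ Submodule.span ℂ {E | ∃ x y, E = EE w x y} := by
  classical
  let b := Module.finBasis ℂ S
  have hB : LinearMap.BilinForm.Nondegenerate (w : LinearMap.BilinForm ℂ S) := by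
    refine ⟨hn, fun y hy => hn y fun x => ?_⟩
    rw [w_anti hw, hy, neg_zero]
  let d := LinearMap.BilinForm.dualBasis w hB b
  have hd : ∀ i j, w (d i) (b j) = if j = i then 1 else 0 := fun i j =>
    LinearMap.BilinForm.apply_dualBasis_left hB b i j
  have h1 : ∀ u, u = ∑ i, w (d i) u • b i := by
    intro u
    conv_lhs => rw [← b.sum_repr u]
    refine Finset.sum_congr rfl fun i _ => ?_
    congr 1
    conv_rhs => rw [← b.sum_repr u]
    rw [map_sum, Finset.sum_eq_single i]
    · rw [map_smul, hd, if_pos rfl, smul_eq_mul, mul_one]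
    · intro j _ hj
      rw [map_smul, hd, if_neg hj, smul_zero]
    · intro h
      exact absurd (Finset.mem_univ _) h
  have h2 : ∀ v, v = -∑ i, w (b i) v • d i := by
    intro v
    rw [← sub_eq_zero]
    refine hn _ fun u => ?_
    conv_lhs => rw [h1 u]
    rw [map_sum]
    refine Finset.sum_eq_zero fun j _ => ?_
    rw [map_smul, smul_eq_mul, mul_eq_zero]
    right
    rw [sub_neg_eq_add, map_add, LinearMap.add_apply, map_sum, LinearMap.sum_apply,
      Finset.sum_eq_single j]
    · rw [map_smul, LinearMap.smul_apply, hd, if_pos rfl, smul_eq_mul, mul_one, w_anti hw,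
        neg_add_cancel]
    · intro i _ hi
      rw [map_smul, LinearMap.smul_apply, hd, if_neg hi.symm, smul_zero]
    · intro h
      exact absurd (Finset.mem_univ _) h
  have h3 : A = (2 : ℂ)⁻¹ • ∑ i, EE w (A (b i)) (d i) := by
    ext u
    rw [LinearMap.smul_apply, LinearMap.sum_apply]
    simp only [EE_apply]
    rw [Finset.sum_add_distrib]
    have h4 : ∑ i, w (d i) u • A (b i) = A u := by
      conv_rhs => rw [h1 u]
      rw [map_sum]
      exact Finset.sum_congr rfl fun i _ => (map_smul _ _ _).symm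
    have h5 : ∑ i, w (A (b i)) u • d i = A u := by
      conv_rhs => rw [h2 (A u)]
      rw [← Finset.sum_neg_distrib]
      refine Finset.sum_congr rfl fun i _ => ?_
      rw [hA, neg_smul]
    rw [h4, h5, ← two_smul ℂ, smul_smul, inv_mul_cancel₀ two_ne_zero, one_smul]
  rw [h3]
  exact Submodule.smul_mem _ _ (Submodule.sum_mem _ fun i _ => Submodule.subset_span ⟨_, _, rfl⟩)

section rep

variable {M : Type*} [AddCommGroup M] [Module ℂ M] {ρ : M →ₗ[ℂ] Module.End ℂ S}
  {br : M → M → M} (hρ : ∀ X Y, ρ (br X Y) = ρ X * ρ Y - ρ Y * ρ X)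
  (hsp : ∀ X, IsSp w (ρ X)) (hfull : ∀ x y, ∃ X, ρ X = EE w x y)

include hw hn hfull in
theorem exists_move {x : S} (hx : x ≠ 0) (y : S) : ∃ X, ρ X x = y := by
  obtain ⟨z, hz⟩ := exists_pair hn hx
  obtain ⟨X, hX⟩ := hfull (y + ((2 : ℂ)⁻¹ * w y x) • z) (-z)
  refine ⟨X, ?_⟩
  have hz' : w z x = -1 := by rw [w_anti hw, hz]
  rw [hX, EE_apply]
  simp only [map_add, map_neg, map_smul, LinearMap.add_apply, LinearMap.neg_apply,
    LinearMap.smul_apply, hz', smul_eq_mul, smul_neg, neg_neg, one_smul]
  have h1 : w y x + 2⁻¹ * w y x * -1 = 2⁻¹ * w y x := by ring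
  rw [h1, add_neg_cancel_right]

include hw hn in
theorem exists_diag {A : Module.End ℂ S} (hA : IsSp w A) (hA0 : A ≠ 0) :
    ∃ x, w x (A x) ≠ 0 := by
  by_contra h
  push Not at h
  apply hA0
  ext y
  refine hn _ fun x => ?_
  have h1 := h (x + y)
  simp only [map_add, LinearMap.add_apply, h, zero_add, add_zero] at h1
  have h2 : w y (A x) = w x (A y) := by
    rw [w_anti hw, hA, neg_neg]
  rw [h2, ← two_mul] at h1
  rw [w_anti hw, (mul_eq_zero.1 h1).resolve_left two_ne_zero, neg_zero]

theorem EE_self (x u : S) : EE w x x u = (2 * w x u) • x := by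
  rw [EE_apply, ← add_smul, two_mul]

include hw in
theorem EE_ad_ad (z : S) (A : Module.End ℂ S) :
    EE w z z * (EE w z z * A - A * EE w z z) - (EE w z z * A - A * EE w z z) * EE w z z =
      (-4 * w z (A z)) • EE w z z := by
  ext u
  simp only [Module.End.mul_apply, LinearMap.sub_apply, LinearMap.smul_apply, EE_self, map_smul,
    map_sub, smul_smul, hw, mul_zero, zero_smul, smul_zero, sub_zero, zero_sub, map_zero]
  rw [← neg_smul, ← sub_smul]
  congr 1
  ring

include hw hn hρ hsp hfull in
/-- A nonzero ideal contains all products of vectors. -/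
theorem ideal_full (I : Submodule ℂ (Module.End ℂ S))
    (hI : ∀ X, ∀ A ∈ I, ρ X * A - A * ρ X ∈ I) {A : Module.End ℂ S} (hA : A ∈ I)
    (hAsp : IsSp w A) (hA0 : A ≠ 0) (x y : S) : EE w x y ∈ I := by
  obtain ⟨z, hz⟩ := exists_diag hw hn hAsp hA0
  have hz0 : z ≠ 0 := by
    rintro rfl
    exact hz (by rw [map_zero, LinearMap.zero_apply])
  obtain ⟨Z, hZ⟩ := hfull z z
  have h1 := hI Z _ (hI Z A hA)
  rw [hZ] at h1
  rw [EE_ad_ad hw] at h1
  have h3 : EE w z z ∈ I := by
    have h4 := Submodule.smul_mem I (-4 * w z (A z))⁻¹ h1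
    rwa [smul_smul, inv_mul_cancel₀ (mul_ne_zero (by norm_num) hz), one_smul] at h4
  have h4 : ∀ y, EE w y z ∈ I := by
    intro y
    obtain ⟨X, hX⟩ := exists_move hw hn hfull hz0 y
    have h5 := hI X _ h3
    rw [EE_bracket (hsp X), hX, EE_comm w z y, ← two_smul ℂ] at h5
    have h6 := Submodule.smul_mem I (2 : ℂ)⁻¹ h5
    rwa [smul_smul, inv_mul_cancel₀ two_ne_zero, one_smul] at h6
  obtain ⟨X, hX⟩ := exists_move hw hn hfull hz0 y
  have h5 := hI X _ (h4 x)
  rw [EE_bracket (hsp X), hX] at h5
  have h6 := Submodule.sub_mem _ h5 (h4 (ρ X x))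
  rwa [add_sub_cancel_left] at h6

end rep

/-- An extremal element is the square of a vector. -/
theorem eq_EE_of_extremal (hw : ∀ x, w x x = 0) (hn : ∀ x, (∀ y, w x y = 0) → x = 0)
    {N : Module.End ℂ S} (hN : IsSp w N) (hN0 : N ≠ 0)
    (hext : ∀ y, ∃ c : ℂ, N * (N * EE w y y - EE w y y * N) - (N * EE w y y - EE w y y * N) * N =
      c • N) : ∃ t, t ≠ 0 ∧ N = EE w t t := by
  have key : ∀ y, ∃ c : ℂ, ∀ u, (2 * w y u) • N (N y) - (4 * w y (N u)) • N y +
      (2 * w y (N (N u))) • y = c • N u := by
    intro y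
    obtain ⟨c, hc⟩ := hext y
    refine ⟨c, fun u => ?_⟩
    have h1 := congrArg (fun F => F u) hc
    simp only [Module.End.mul_apply, LinearMap.sub_apply, LinearMap.smul_apply, EE_self, map_smul,
      map_sub] at h1
    rw [← h1]
    have h2 : (4 * w y (N u)) • N y = (2 * w y (N u)) • N y + (2 * w y (N u)) • N y := by
      rw [← add_smul]
      congr 1
      ring
    rw [h2]
    abel
  have hyN : ∀ y, w y (N (N y)) = 0 := by
    intro y
    have h1 := hN y (N y)
    rw [hw] at h1
    exact (neg_eq_zero.1 h1.symm)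
  have hc : ∀ y, w y (N y) ≠ 0 → ∀ u, (2 * w y u) • N (N y) - (4 * w y (N u)) • N y +
      (2 * w y (N (N u))) • y = (-4 * w y (N y)) • N u := by
    intro y hy
    obtain ⟨c, hc⟩ := key y
    have h1 := hc y
    simp only [hw, hyN, mul_zero, zero_smul, zero_sub, add_zero] at h1
    rw [← neg_smul] at h1
    have hNy : N y ≠ 0 := by
      intro h
      apply hy
      rw [h, map_zero]
    have h2 : c = -4 * w y (N y) := by
      have h3 : (-(4 * w y (N y)) - c) • N y = 0 := by rw [sub_smul, h1, sub_self]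
      have h4 := (smul_eq_zero.1 h3).resolve_right hNy
      linear_combination -h4
    rw [← h2]
    exact hc
  have hNN : ∀ y, w y (N y) ≠ 0 → N (N y) = 0 := by
    intro y hy
    have h1 := hc y hy (N y)
    rw [hyN, mul_zero, zero_smul, sub_zero] at h1
    obtain ⟨κ, hκ⟩ : ∃ κ : ℂ, N (N y) = κ • y := by
      refine ⟨-(w y (N (N (N y)))) / (3 * w y (N y)), ?_⟩
      have h2 : (6 * w y (N y)) • N (N y) = -(2 * w y (N (N (N y)))) • y := by
        have h3 : (2 * w y (N y)) • N (N y) + (2 * w y (N (N (N y)))) • y -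
            (-4 * w y (N y)) • N (N y) = 0 := by rw [h1, sub_self]
        have h4 : (6 * w y (N y)) • N (N y) = (2 * w y (N y)) • N (N y) -
            (-4 * w y (N y)) • N (N y) := by
          rw [← sub_smul]
          congr 1
          ring
        rw [h4, neg_smul]
        rw [← sub_eq_zero, ← h3]
        abel
      have h6 : (6 * w y (N y)) ≠ 0 := mul_ne_zero (by norm_num) hy
      have h7 : N (N y) = (6 * w y (N y))⁻¹ • (-(2 * w y (N (N (N y)))) • y) := by
        rw [← h2, smul_smul, inv_mul_cancel₀ h6, one_smul]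
      refine h7.trans ?_
      rw [smul_smul]
      congr 1
      field_simp
      ring
    rw [hκ] at h1 ⊢
    rw [map_smul, map_smul, smul_eq_mul, smul_smul, smul_smul, ← add_smul] at h1
    have hy0 : y ≠ 0 := by
      rintro rfl
      exact hy (by rw [map_zero, LinearMap.zero_apply])
    have h2 : (2 * w y (N y) * κ + 2 * (κ * w y (N y)) - -4 * w y (N y) * κ) • y = 0 := by
      rw [sub_smul, h1, sub_self]
    have h3 := (smul_eq_zero.1 h2).resolve_right hy0
    have h4 : κ = 0 := by
      have h5 : (8 * w y (N y)) * κ = 0 := by linear_combination h3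
      exact (mul_eq_zero.1 h5).resolve_left (mul_ne_zero (by norm_num) hy)
    rw [h4, zero_smul]
  obtain ⟨y, hy⟩ := exists_diag hw hn hN hN0
  have hN2 : ∀ u, N (N u) = 0 := by
    intro u
    by_cases hu : w u (N u) = 0
    · have h1 : w (u + y) (N (u + y)) + w (u - y) (N (u - y)) = 2 * w y (N y) := by
        simp only [map_add, map_sub, LinearMap.add_apply, LinearMap.sub_apply, hu]
        ring
      have h2 : w (u + y) (N (u + y)) ≠ 0 ∨ w (u - y) (N (u - y)) ≠ 0 := by
        by_contra h
        push Not at h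
        rw [h.1, h.2, add_zero] at h1
        exact hy ((mul_eq_zero.1 h1.symm).resolve_left two_ne_zero)
      have h3 := hNN y hy
      rcases h2 with h2 | h2
      · have h4 := hNN _ h2
        rwa [map_add, map_add, h3, add_zero] at h4
      · have h4 := hNN _ h2
        rwa [map_sub, map_sub, h3, sub_zero] at h4
    · exact hNN u hu
  obtain ⟨a, ha⟩ := IsAlgClosed.exists_pow_nat_eq (-(2 * w y (N y))⁻¹) (n := 2) (by norm_num)
  refine ⟨a • N y, ?_, ?_⟩
  · intro h
    have h1 : a ≠ 0 := by
      rintro rfl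
      rw [zero_pow two_ne_zero] at ha
      have h2 : (2 * w y (N y))⁻¹ = 0 := neg_eq_zero.1 ha.symm
      exact mul_ne_zero two_ne_zero hy (inv_eq_zero.1 h2)
    have h2 := (smul_eq_zero.1 h).resolve_left h1
    apply hy
    rw [h2, map_zero]
  · ext u
    have h1 := hc y hy u
    rw [hN2, hN2, smul_zero, map_zero, mul_zero, zero_smul, add_zero, zero_sub, ← neg_smul] at h1
    have h2 : N u = (w y (N y))⁻¹ • (w y (N u) • N y) := by
      have h3 : (w y (N y)) • N u = w y (N u) • N y := by
        have h4 : (4 : ℂ) • ((w y (N y)) • N u) = (4 : ℂ) • (w y (N u) • N y) := by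
          rw [smul_smul, smul_smul]
          have h5 : -((-4 * w y (N y)) • N u) = -(-(4 * w y (N u)) • N y) := by rw [h1]
          rw [neg_smul, neg_neg] at h5
          rw [← h5, ← neg_smul]
          congr 1
          ring
        exact smul_right_injective _ (by norm_num : (4 : ℂ) ≠ 0) h4
      rw [← h3, smul_smul, inv_mul_cancel₀ hy, one_smul]
    rw [EE_self, map_smul, LinearMap.smul_apply, smul_eq_mul, smul_smul]
    conv_lhs => rw [h2, smul_smul]
    congr 1
    have h3 : w (N y) u = -w y (N u) := hN y u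
    rw [h3]
    have h4 : a * a = -(2 * w y (N y))⁻¹ := by rw [← ha, sq]
    have h5 : 2 * (a * -(w y (N u))) * a = -2 * (a * a) * w y (N u) := by ring
    rw [h5, h4]
    field_simp

end one

end Pool.Agent.W437.HP
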