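import Mathlib
import Pool.Agent.W437.HP.Multi
import Pool.Agent.W437.HP.FFTM
import Pool.Agent.W437.HD.Darboux
import Pool.Agent.W437.HD.Var

/-!
# Forms killed by a Lie algebra which acts on several spaces as the symplectic Lie algebra
-/

set_option linter.unusedSectionVars false

namespace Pool.Agent.W437.HP

open Matrix Module Pool.Agent.H204R3.SP Pool.Agent.H204R3.GP Pool.Agent.W437.HC
  Pool.Agent.W437.HD

variable {B : Type*} [Fintype B] [DecidableEq B] {D : Matrix B B ℂ} {𝒜 : Type} [Fintype 𝒜]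
  [DecidableEq 𝒜] {N : 𝒜 → Type} [∀ a, AddCommGroup (N a)] [∀ a, Module ℂ (N a)]
  [∀ a, FiniteDimensional ℂ (N a)] [∀ a, Nontrivial (N a)]
  {br : lieM D ℂ → lieM D ℂ → lieM D ℂ}

/-- The theorem on forms for a system of spaces. -/
theorem mem_MS_of_sys (s : Sys (lieM D ℂ) br N) (inc : ∀ a, N a →ₗ[ℂ] (B → ℂ))
    (prj : ∀ a, (B → ℂ) →ₗ[ℂ] N a) (hip : ∀ y, y = ∑ a, inc a (prj a y))
    (hinc : ∀ a (X : lieM D ℂ) u, X.1 *ᵥ inc a u = inc a (s.ρ a X u))
    (hprj : ∀ a (X : lieM D ℂ) y, prj a (X.1 *ᵥ y) = s.ρ a X (prj a y))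
    {m : ℕ} (c : (Fin m × Fin 2 → B) → ℚ) (hc : IsH D c) : c ∈ MS D m := by
  classical
  -- the classes
  let Q := Quotient (lset s)
  let r : Q → 𝒜 := Quotient.out
  have hr : ∀ (q : Q) (a : 𝒜), Lnk s (r q) a ↔ q = (Quotient.mk (lset s) a) := by
    intro q a
    constructor
    · intro h
      rw [← Quotient.out_eq q]
      exact Quotient.sound h
    · rintro rfl
      exact @Quotient.exact _ (lset s) (r (Quotient.mk (lset s) a)) a (Quotient.out_eq _)
  have : Fintype Q := Fintype.ofFinite Q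
  have hF : ∀ (q : Q) (a : 𝒜), ∃ (f : N (r q) →ₗ[ℂ] N a) (f' : N a →ₗ[ℂ] N (r q)),
      (∀ X u, f (s.ρ (r q) X u) = s.ρ a X (f u)) ∧
      (∀ X u, f' (s.ρ a X u) = s.ρ (r q) X (f' u)) ∧
      (q = Quotient.mk (lset s) a → (∀ x y, s.w a (f x) (f y) = s.w (r q) x y) ∧
        (∀ u, f (f' u) = u) ∧ (∀ u, f' (f u) = u)) ∧
      (q ≠ Quotient.mk (lset s) a → f = 0 ∧ f' = 0) := by
    intro q a
    by_cases hq : q = Quotient.mk (lset s) a
    · obtain ⟨f, h1, h2⟩ := (hr q a).2 hq
      refine ⟨f, f.symm, h1, fun X u => ?_, fun _ => ⟨h2, fun u => f.apply_symm_apply u,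
        fun u => f.symm_apply_apply u⟩, fun h => absurd hq h⟩
      change f.symm _ = s.ρ (r q) X (f.symm u)
      rw [LinearEquiv.symm_apply_eq, h1, LinearEquiv.apply_symm_apply]
    · refine ⟨0, 0, fun X u => ?_, fun X u => ?_, fun h => absurd h hq, fun _ => ⟨rfl, rfl⟩⟩
      · simp
      · simp
  choose Φ Ψ hΦe hΨe hΦΨ hΦ0 using hF
  -- symplectic bases
  have hD : ∀ q : Q, ∃ (R : Type) (_ : Fintype R) (_ : DecidableEq R)
      (e : Basis R ℂ (N (r q))) (inv : R → R) (jj : R → ℂ),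
      (∀ x, inv (inv x) = x) ∧ (∀ x, inv x ≠ x) ∧ (∀ x, jj (inv x) = -jj x) ∧
      (∀ x, jj x = 1 ∨ jj x = -1) ∧ ∀ x y, s.w (r q) (e x) (e y) = JJ inv jj x y := by
    intro q
    obtain ⟨R, h1, h2, e, inv, jj, h3, h4, h5, h6, h7⟩ := exists_darboux
      (finrank ℂ (N (r q))) (N (r q)) (s.w (r q)) (s.alt (r q))
      (fun u hu => s.nd (r q) u fun v => by rw [w_anti (s.alt (r q)), hu, neg_zero]) le_rfl
    exact ⟨R, h1, h2, e, inv, jj, h3, h4, h5, h6, h7⟩
  choose R hR1 hR2 e inv jj h3 h4 h5 h6 h7 using hD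
  have hJ : ∀ (q : Q) (x x' : R q), JJ (fun y : (Σ q, R q) => (⟨y.1, inv y.1 y.2⟩ : Σ q, R q))
      (fun y => jj y.1 y.2) (⟨q, x⟩ : Σ q, R q) ⟨q, x'⟩ = s.w (r q) (e q x) (e q x') := by
    intro q x x'
    rw [h7]
    unfold JJ
    by_cases hx : x' = inv q x
    · rw [if_pos hx, if_pos (by rw [hx])]
    · rw [if_neg hx, if_neg]
      intro h
      apply hx
      simpa using h
  have hJ0 : ∀ (q q' : Q) (x : R q) (x' : R q'), q ≠ q' →
      JJ (fun y : (Σ q, R q) => (⟨y.1, inv y.1 y.2⟩ : Σ q, R q))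
      (fun y => jj y.1 y.2) (⟨q, x⟩ : Σ q, R q) ⟨q', x'⟩ = 0 := by
    intro q q' x x' hq
    unfold JJ
    rw [if_neg]
    intro h
    exact hq (congrArg Sigma.fst h).symm
  refine mem_MS_of_mult (D := D) (R := Σ q, R q) (Q := Q) (cls := Sigma.fst)
    (inv := fun x => ⟨x.1, inv x.1 x.2⟩) (jj := fun x => jj x.1 x.2) (𝒜 := 𝒜)
    (cl := fun a => Quotient.mk (lset s) a)
    (co := fun a => Matrix.of fun y i => (e y.1).repr (Ψ y.1 a (prj a (Pi.single i 1))) y.2)
    (ev := fun a y => inc a (Φ y.1 a (e y.1 y.2))) ?_ ?_ ?_ ?_ ?_ ?_ ?_ ?_ c hc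
  · rintro ⟨p, x⟩
    simp only [h3]
  · rintro ⟨p, x⟩
    simp only [h5]
  · rintro ⟨p, x⟩
    rcases h6 p x with h | h
    · simp only [h]
      exact one_ne_zero
    · simp only [h]
      exact neg_ne_zero.2 one_ne_zero
  · rintro ⟨p, x⟩ ⟨q, y⟩ h
    exact h
  · intro i
    conv_lhs => rw [hip (Pi.single i 1)]
    refine Finset.sum_congr rfl fun a _ => ?_
    rw [Fintype.sum_sigma]
    simp only [Matrix.of_apply]
    have h8 : ∀ q, ∑ x : R q, (e q).repr (Ψ q a (prj a (Pi.single i 1))) x •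
        inc a (Φ q a (e q x)) = inc a (Φ q a (Ψ q a (prj a (Pi.single i 1)))) := by
      intro q
      conv_rhs => rw [← (e q).sum_repr (Ψ q a (prj a (Pi.single i 1)))]
      rw [map_sum, map_sum]
      exact Finset.sum_congr rfl fun x _ => by rw [map_smul, map_smul]
    rw [Finset.sum_congr rfl (fun q _ => h8 q), Finset.sum_eq_single (Quotient.mk (lset s) a)]
    · rw [(hΦΨ _ a rfl).2.1]
    · intro q _ hq
      rw [(hΦ0 q a hq).1, LinearMap.zero_apply, map_zero]
    · intro h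
      exact absurd (Finset.mem_univ _) h
  · rintro a ⟨q, x⟩ hq
    simp only at hq ⊢
    rw [(hΦ0 q a hq).1, LinearMap.zero_apply, map_zero]
  · rintro ⟨q, x⟩ ⟨q', x'⟩ hq
    have hq' : q = q' := hq
    subst hq'
    obtain ⟨X, hX1, hX2, hX3⟩ := lift_class s (r q) (e q x) (e q x')
    refine ⟨X.1, X.2, ?_⟩
    rintro a ⟨q2, z⟩
    simp only
    rw [hinc]
    by_cases hqa : q = Quotient.mk (lset s) a
    · by_cases hq2 : q2 = q
      · subst hq2
        rw [hJ, hJ]
        let f : N (r q2) ≃ₗ[ℂ] N a := LinearEquiv.ofLinearMap (Φ q2 a) (Ψ q2 a)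
          (by
            ext u
            exact (hΦΨ q2 a hqa).2.1 u)
          (by
            ext u
            exact (hΦΨ q2 a hqa).2.2 u)
        have h8 := hX3 a f (hΦe q2 a) (hΦΨ q2 a hqa).1
        have hf : ∀ u, f u = Φ q2 a u := fun u => rfl
        rw [hf, hf] at h8
        rw [h8, EE_apply, (hΦΨ q2 a hqa).1, (hΦΨ q2 a hqa).1, map_add, map_smul, map_smul]
      · rw [hJ0 q q2 _ _ (Ne.symm hq2), hJ0 q q2 _ _ (Ne.symm hq2), zero_smul, zero_smul,
          (hΦ0 q2 a (fun h => hq2 (h.trans hqa.symm))).1, LinearMap.zero_apply, map_zero, map_zero,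
          add_zero]
    · rw [hX2 a (fun h => hqa ((hr q a).1 h)), (hΦ0 q a hqa).1]
      simp
  · intro a a' q Y hY
    obtain ⟨G, hG⟩ : ∃ G : Matrix B B ℂ, G = (Matrix.of fun (y : Σ q, R q) (i : B) =>
        (e y.1).repr (Ψ y.1 a (prj a (Pi.single i 1))) y.2)ᵀ *
        (Matrix.of fun (x y : Σ q, R q) => if x.1 = q then
          JJ (fun x : (Σ q, R q) => (⟨x.1, inv x.1 x.2⟩ : Σ q, R q)) (fun x => jj x.1 x.2) x y
          else 0) * (Matrix.of fun (y : Σ q, R q) (i : B) =>
        (e y.1).repr (Ψ y.1 a' (prj a' (Pi.single i 1))) y.2) := ⟨_, rfl⟩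
    rw [← hG]
    have h8 : ∀ i j, G i j = s.w (r q) (Ψ q a (prj a (Pi.single i 1)))
        (Ψ q a' (prj a' (Pi.single j 1))) := by
      intro i j
      have h9 : G i j = ∑ y : (Σ q, R q), ∑ y' : (Σ q, R q),
          (e y.1).repr (Ψ y.1 a (prj a (Pi.single i 1))) y.2 * (if y.1 = q then
          JJ (fun x : (Σ q, R q) => (⟨x.1, inv x.1 x.2⟩ : Σ q, R q)) (fun x => jj x.1 x.2) y y'
          else 0) * (e y'.1).repr (Ψ y'.1 a' (prj a' (Pi.single j 1))) y'.2 := by
        rw [hG]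
        simp only [Matrix.mul_apply, Matrix.transpose_apply, Matrix.of_apply, Finset.sum_mul]
        rw [Finset.sum_comm]
      rw [h9, Fintype.sum_sigma, Finset.sum_eq_single q]
      · conv_rhs => rw [← (e q).sum_repr (Ψ q a (prj a (Pi.single i 1))),
          ← (e q).sum_repr (Ψ q a' (prj a' (Pi.single j 1)))]
        rw [LinearMap.map_sum₂]
        refine Finset.sum_congr rfl fun x _ => ?_
        rw [Fintype.sum_sigma, Finset.sum_eq_single q]
        · rw [map_smul, LinearMap.smul_apply, map_sum, smul_eq_mul, Finset.mul_sum]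
          refine Finset.sum_congr rfl fun x' _ => ?_
          simp only [if_true]
          rw [hJ, map_smul, smul_eq_mul]
          ring
        · intro q' _ hq'
          refine Finset.sum_eq_zero fun x' _ => ?_
          simp only [if_true]
          rw [hJ0 q q' _ _ (Ne.symm hq'), mul_zero, zero_mul]
        · intro h
          exact absurd (Finset.mem_univ _) h
      · intro q' _ hq'
        refine Finset.sum_eq_zero fun x _ => Finset.sum_eq_zero fun y' _ => ?_
        simp only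
        rw [if_neg hq', mul_zero, zero_mul]
      · intro h
        exact absurd (Finset.mem_univ _) h
    -- the bilinear form
    have h9 : ∀ y y' : B → ℂ, y ⬝ᵥ (G *ᵥ y') = s.w (r q) (Ψ q a (prj a y))
        (Ψ q a' (prj a' y')) := by
      intro y y'
      have e1 : ∀ z : B → ℂ, z = ∑ i, z i • (Pi.single i 1 : B → ℂ) := by
        intro z
        funext j
        rw [Finset.sum_apply, Finset.sum_eq_single j]
        · simp
        · intro b _ hb
          rw [Pi.smul_apply, Pi.single_eq_of_ne (Ne.symm hb), smul_zero]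
        · intro h
          exact absurd (Finset.mem_univ _) h
      have e2 : Ψ q a (prj a y) = ∑ i, y i • Ψ q a (prj a (Pi.single i 1)) := by
        conv_lhs => rw [e1 y]
        rw [map_sum, map_sum]
        exact Finset.sum_congr rfl fun i _ => by rw [map_smul, map_smul]
      have e3 : Ψ q a' (prj a' y') = ∑ i, y' i • Ψ q a' (prj a' (Pi.single i 1)) := by
        conv_lhs => rw [e1 y']
        rw [map_sum, map_sum]
        exact Finset.sum_congr rfl fun i _ => by rw [map_smul, map_smul]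
      rw [e2, e3, LinearMap.map_sum₂]
      simp only [dotProduct, mulVec, map_smul, LinearMap.smul_apply, smul_eq_mul, map_sum,
        Finset.mul_sum, h8]
      refine Finset.sum_congr rfl fun i _ => Finset.sum_congr rfl fun j _ => ?_
      ring
    have h10 : ∀ y y' : B → ℂ, y ⬝ᵥ ((Yᵀ * G + G * Y) *ᵥ y') = 0 := by
      intro y y'
      rw [add_mulVec, dotProduct_add, ← mulVec_mulVec, ← mulVec_mulVec, dotProduct_mulVec y,
        vecMul_transpose, h9, h9, hprj a ⟨Y, hY⟩, hprj a' ⟨Y, hY⟩, hΨe, hΨe, s.sp, neg_add_cancel]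
    ext i j
    have h11 := h10 (Pi.single i 1) (Pi.single j 1)
    rw [mulVec_single_one, single_one_dotProduct] at h11
    exact h11

end Pool.Agent.W437.HP
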