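import Mathlib
import Pool.Agent.W437.HD.Rat

/-!
# Morphisms of Hodge structures and the Lie algebras
-/

set_option linter.unusedSectionVars false

namespace Pool.Agent.W437.HP

open Matrix Pool.Agent.W437.HC Pool.Agent.W437.HD

section pull

variable {R B κ K : Type*} [Fintype B] [DecidableEq B] [Fintype R] [DecidableEq R] [Fintype κ]
  [DecidableEq κ] [Field K]

/-- The pullback of a form. -/
def pull (E : Matrix R B K) (c : (κ → R) → K) : (κ → B) → K :=
  fun I => ∑ J : κ → R, c J * ∏ k, E (J k) (I k)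

theorem evalF_pull (E : Matrix R B K) (c : (κ → R) → K) (x : κ → B → K) :
    evalF (pull E c) x = evalF c (fun k => E *ᵥ x k) := by
  unfold evalF pull
  simp only [Finset.sum_mul]
  rw [Finset.sum_comm]
  refine Finset.sum_congr rfl fun J _ => ?_
  have h1 : ∏ k, (E *ᵥ x k) (J k) = ∑ I : κ → B, ∏ k, E (J k) (I k) * x k (I k) := by
    simp only [mulVec, dotProduct]
    rw [Finset.prod_univ_sum, Fintype.piFinset_univ]
  rw [h1, Finset.mul_sum]
  refine Finset.sum_congr rfl fun I _ => ?_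
  rw [Finset.prod_mul_distrib, mul_assoc]

theorem evalF_ext {c c' : (κ → B) → K} (h : ∀ x, evalF c x = evalF c' x) : c = c' := by
  funext I
  rw [← evalF_single c I, h, evalF_single]

theorem act_pull {E : Matrix R B K} {X : Matrix B B K} {Y : Matrix R R K} (h : E * X = Y * E)
    (c : (κ → R) → K) : act X (pull E c) = pull E (act Y c) := by
  refine evalF_ext fun x => ?_
  rw [evalF_act, evalF_pull, evalF_act]
  refine Finset.sum_congr rfl fun k _ => ?_
  rw [evalF_pull]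
  congr 1
  funext l
  by_cases hl : l = k
  · subst hl
    rw [Function.update_self, Function.update_self, mulVec_mulVec, mulVec_mulVec, h]
  · rw [Function.update_of_ne hl, Function.update_of_ne hl]

theorem pull_pull {S : Type*} [Fintype S] [DecidableEq S] (E : Matrix R B K) (F : Matrix B S K)
    (c : (κ → R) → K) : pull F (pull E c) = pull (E * F) c := by
  refine evalF_ext fun x => ?_
  rw [evalF_pull, evalF_pull, evalF_pull]
  congr 1
  funext k
  rw [mulVec_mulVec]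

theorem pull_one (c : (κ → B) → K) : pull (1 : Matrix B B K) c = c := by
  refine evalF_ext fun x => ?_
  rw [evalF_pull]
  congr 1
  funext k
  rw [one_mulVec]

theorem pull_zero (E : Matrix R B K) : pull E (0 : (κ → R) → K) = 0 := by
  funext I
  simp [pull]

end pull

/-- Extension of scalars of rational matrices. -/
def cK (K : Type*) [Field K] {m n : Type*} (M : Matrix m n ℚ) : Matrix m n K :=
  M.map (fun x : ℚ => (x : K))

section cast

variable (K : Type*) [Field K] [CharZero K] {m n l : Type*}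

theorem cK_mul [Fintype n] (M : Matrix m n ℚ) (N : Matrix n l ℚ) :
    cK K (M * N) = cK K M * cK K N :=
  Matrix.map_mul (f := Rat.castHom K)

theorem cK_one [DecidableEq n] : cK K (1 : Matrix n n ℚ) = 1 :=
  Matrix.map_one _ (by simp) (by simp)

theorem cK_zero : cK K (0 : Matrix m n ℚ) = 0 := by
  ext i j
  simp [cK]

theorem cK_transpose (M : Matrix m n ℚ) : cK K Mᵀ = (cK K M)ᵀ := rfl

theorem cK_sum {ι : Type*} (s : Finset ι) (M : ι → Matrix m n ℚ) :
    cK K (∑ i ∈ s, M i) = ∑ i ∈ s, cK K (M i) := by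
  ext i j
  simp [cK, Matrix.sum_apply]

end cast

section morph

variable {R B K : Type*} [Fintype B] [DecidableEq B] [Fintype R] [DecidableEq R] [Field K]
  [CharZero K] {D : Matrix B B ℂ} {D' : Matrix R R ℂ}

theorem cst_pull {κ : Type*} [Fintype κ] [DecidableEq κ] (P : Matrix R B ℚ)
    (c : (κ → R) → ℚ) : cst K (pull P c) = pull (cK K P) (cst K c) := by
  funext I
  simp [cst, pull, cK]

theorem isH_pull {P : Matrix R B ℚ} (h : cK ℂ P * D = D' * cK ℂ P) {κ : Type*} [Fintype κ]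
    [DecidableEq κ] {c : (κ → R) → ℚ} (hc : IsH D' c) : IsH D (pull P c) := by
  unfold IsH at hc ⊢
  rw [cst_pull, act_pull h, hc, pull_zero]

/-- The image of the Lie algebra. -/
theorem lieM_blk {P : Matrix R B ℚ} {Q : Matrix B R ℚ} (h : cK ℂ P * D = D' * cK ℂ P)
    (hPQ : P * Q = 1) {X : Matrix B B K} (hX : X ∈ lieM D K)
    (hXQ : X * cK K Q = cK K Q * (cK K P * X * cK K Q)) :
    cK K P * X * cK K Q ∈ lieM D' K := by
  intro n c hc
  have h1 : cst K c = pull (cK K Q) (cst K (pull P c)) := by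
    rw [cst_pull, pull_pull, ← cK_mul, hPQ, cK_one, pull_one]
  rw [h1, act_pull hXQ.symm, lieM_kills D hX (isH_pull h hc), pull_zero]

/-- The blocks off the diagonal vanish. -/
theorem blk_off {P : Matrix R B ℚ} {Q : Matrix B R ℚ} (h : cK ℂ P * D = D' * cK ℂ P)
    (hPQ : P * Q = 1) {Om' : Matrix R R ℚ} (hOm : IsUnit Om')
    (hD : D'ᵀ * cK ℂ Om' + cK ℂ Om' * D' = 0) {S : Type*} [Fintype S] {Q' : Matrix B S ℚ}
    (hQ' : P * Q' = 0) {X : Matrix B B K} (hX : X ∈ lieM D K) :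
    cK K P * X * cK K Q' = 0 := by
  have h1 : IsH D (bilc (Pᵀ * Om' * P)) := by
    refine isH_bilc D ?_
    change Dᵀ * cK ℂ (Pᵀ * Om' * P) + cK ℂ (Pᵀ * Om' * P) * D = 0
    rw [cK_mul, cK_mul, cK_transpose]
    have e1 : Dᵀ * ((cK ℂ P)ᵀ * cK ℂ Om' * cK ℂ P) = (cK ℂ P * D)ᵀ * cK ℂ Om' * cK ℂ P := by
      rw [transpose_mul]
      simp only [Matrix.mul_assoc]
    have e2 : (cK ℂ P)ᵀ * cK ℂ Om' * cK ℂ P * D = (cK ℂ P)ᵀ * cK ℂ Om' * (cK ℂ P * D) := by
      simp only [Matrix.mul_assoc]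
    rw [e1, e2, h, transpose_mul]
    have e3 : (cK ℂ P)ᵀ * D'ᵀ * cK ℂ Om' * cK ℂ P + (cK ℂ P)ᵀ * cK ℂ Om' * (D' * cK ℂ P) =
        (cK ℂ P)ᵀ * (D'ᵀ * cK ℂ Om' + cK ℂ Om' * D') * cK ℂ P := by
      simp only [Matrix.mul_add, Matrix.add_mul, Matrix.mul_assoc]
    rw [e3, hD, Matrix.mul_zero, Matrix.zero_mul]
  have h2 := lieM_bil D h1 hX
  change Xᵀ * cK K (Pᵀ * Om' * P) + cK K (Pᵀ * Om' * P) * X = 0 at h2
  rw [cK_mul, cK_mul, cK_transpose] at h2
  have h3 := congrArg (fun M => (cK K Q)ᵀ * M * cK K Q') h2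
  simp only [Matrix.mul_zero, Matrix.zero_mul, Matrix.mul_add, Matrix.add_mul] at h3
  have e4 : (cK K Q)ᵀ * (Xᵀ * ((cK K P)ᵀ * cK K Om' * cK K P)) * cK K Q' = 0 := by
    have : (cK K Q)ᵀ * (Xᵀ * ((cK K P)ᵀ * cK K Om' * cK K P)) * cK K Q' =
        (cK K Q)ᵀ * Xᵀ * (cK K P)ᵀ * cK K Om' * (cK K P * cK K Q') := by
      simp only [Matrix.mul_assoc]
    rw [this, ← cK_mul, hQ', cK_zero, Matrix.mul_zero]
  have e5 : (cK K Q)ᵀ * ((cK K P)ᵀ * cK K Om' * cK K P * X) * cK K Q' =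
      cK K Om' * (cK K P * X * cK K Q') := by
    have : (cK K Q)ᵀ * ((cK K P)ᵀ * cK K Om' * cK K P * X) * cK K Q' =
        (cK K P * cK K Q)ᵀ * (cK K Om' * (cK K P * X * cK K Q')) := by
      rw [transpose_mul]
      simp only [Matrix.mul_assoc]
    rw [this, ← cK_mul, hPQ, cK_one, transpose_one, Matrix.one_mul]
  rw [e4, e5, zero_add] at h3
  obtain ⟨u, hu⟩ := hOm
  have h4 : cK K ((u⁻¹ : (Matrix R R ℚ)ˣ) : Matrix R R ℚ) * (cK K Om' * (cK K P * X * cK K Q')) =
      cK K P * X * cK K Q' := by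
    rw [← Matrix.mul_assoc, ← cK_mul, ← hu, Units.inv_mul, cK_one, Matrix.one_mul]
  rw [← h4, h3, Matrix.mul_zero]

end morph

/-- A decomposition of a space into blocks. -/
structure Blocks (B : Type*) [Fintype B] [DecidableEq B] (D : Matrix B B ℂ) {ι : Type}
    [Fintype ι] [DecidableEq ι] (R : ι → Type) [∀ i, Fintype (R i)] [∀ i, DecidableEq (R i)]
    (D' : ∀ i, Matrix (R i) (R i) ℂ) (Om' : ∀ i, Matrix (R i) (R i) ℚ) where
  /-- the projections -/
  P : ∀ i, Matrix (R i) B ℚ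
  same : ∀ i, P i * (P i)ᵀ = 1
  off : ∀ i j, i ≠ j → P i * (P j)ᵀ = 0
  tot : ∑ i, (P i)ᵀ * P i = 1
  com : ∀ i, cK ℂ (P i) * D = D' i * cK ℂ (P i)
  unit : ∀ i, IsUnit (Om' i)
  sp : ∀ i, (D' i)ᵀ * cK ℂ (Om' i) + cK ℂ (Om' i) * D' i = 0

section blocks

variable {B : Type*} [Fintype B] [DecidableEq B] {D : Matrix B B ℂ} {ι : Type}
    [Fintype ι] [DecidableEq ι] {R : ι → Type} [∀ i, Fintype (R i)] [∀ i, DecidableEq (R i)]
    {D' : ∀ i, Matrix (R i) (R i) ℂ} {Om' : ∀ i, Matrix (R i) (R i) ℚ}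
    (b : Blocks B D R D' Om')

/-- The diagonal blocks. -/
def Blocks.bl (K : Type*) [Field K] (i : ι) : Matrix B B K →ₗ[K] Matrix (R i) (R i) K where
  toFun X := cK K (b.P i) * X * (cK K (b.P i))ᵀ
  map_add' X Y := by rw [Matrix.mul_add, Matrix.add_mul]
  map_smul' a X := by rw [Matrix.mul_smul, Matrix.smul_mul, RingHom.id_apply]

theorem Blocks.bl_apply (K : Type*) [Field K] (i : ι) (X : Matrix B B K) :
    b.bl K i X = cK K (b.P i) * X * (cK K (b.P i))ᵀ := rfl

variable {K : Type*} [Field K] [CharZero K]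

theorem Blocks.sameK (i : ι) : cK K (b.P i) * (cK K (b.P i))ᵀ = 1 := by
  rw [← cK_transpose, ← cK_mul, b.same, cK_one]

theorem Blocks.offK {i j : ι} (h : i ≠ j) : cK K (b.P i) * (cK K (b.P j))ᵀ = 0 := by
  rw [← cK_transpose, ← cK_mul, b.off i j h, cK_zero]

theorem Blocks.totK : ∑ i, (cK K (b.P i))ᵀ * cK K (b.P i) = 1 := by
  have h := congrArg (cK K) b.tot
  rw [cK_sum, cK_one] at h
  rw [← h]
  exact Finset.sum_congr rfl fun i _ => by rw [cK_mul, cK_transpose]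

theorem Blocks.off_zero {X : Matrix B B K} (hX : X ∈ lieM D K) {i j : ι} (h : i ≠ j) :
    cK K (b.P i) * X * (cK K (b.P j))ᵀ = 0 :=
  blk_off (b.com i) (b.same i) (b.unit i) (b.sp i) (b.off i j h) hX

theorem Blocks.mul_inc {X : Matrix B B K} (hX : X ∈ lieM D K) (i : ι) :
    X * (cK K (b.P i))ᵀ = (cK K (b.P i))ᵀ * b.bl K i X := by
  conv_lhs => rw [← Matrix.one_mul (X * (cK K (b.P i))ᵀ), ← b.totK]
  rw [Matrix.sum_mul, Finset.sum_eq_single i]
  · rw [b.bl_apply]
    simp only [Matrix.mul_assoc]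
  · intro j _ hj
    rw [Matrix.mul_assoc, ← Matrix.mul_assoc (cK K (b.P j)) X, b.off_zero hX hj, Matrix.mul_zero]
  · intro h
    exact absurd (Finset.mem_univ _) h

theorem Blocks.prj_mul {X : Matrix B B K} (hX : X ∈ lieM D K) (i : ι) :
    cK K (b.P i) * X = b.bl K i X * cK K (b.P i) := by
  conv_lhs => rw [← Matrix.mul_one (cK K (b.P i) * X), ← b.totK]
  rw [Matrix.mul_sum, Finset.sum_eq_single i]
  · rw [b.bl_apply]
    simp only [Matrix.mul_assoc]
  · intro j _ hj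
    rw [← Matrix.mul_assoc, b.off_zero hX (Ne.symm hj), Matrix.zero_mul]
  · intro h
    exact absurd (Finset.mem_univ _) h

theorem Blocks.bl_mem {X : Matrix B B K} (hX : X ∈ lieM D K) (i : ι) :
    b.bl K i X ∈ lieM (D' i) K :=
  lieM_blk (Q := (b.P i)ᵀ) (b.com i) (b.same i) hX (b.mul_inc hX i)

theorem Blocks.bl_mul (X : Matrix B B K) {Y : Matrix B B K} (hY : Y ∈ lieM D K) (i : ι) :
    b.bl K i (X * Y) = b.bl K i X * b.bl K i Y := by
  rw [b.bl_apply, ← Matrix.mul_assoc, Matrix.mul_assoc (cK K (b.P i) * X), b.mul_inc hY,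
    ← Matrix.mul_assoc, b.bl_apply K i X]

theorem Blocks.bl_bracket {X Y : Matrix B B K} (hX : X ∈ lieM D K) (hY : Y ∈ lieM D K) (i : ι) :
    b.bl K i (X * Y - Y * X) = b.bl K i X * b.bl K i Y - b.bl K i Y * b.bl K i X := by
  rw [map_sub, b.bl_mul X hY, b.bl_mul Y hX]

theorem Blocks.bl_D (i : ι) : b.bl ℂ i D = D' i := by
  rw [b.bl_apply, b.com, Matrix.mul_assoc, b.sameK, Matrix.mul_one]

theorem Blocks.bl_map (lam : K →ₗ[ℚ] ℚ) (X : Matrix B B K) (i : ι) :
    b.bl ℚ i (X.map lam) = (b.bl K i X).map lam := by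
  ext x y
  rw [b.bl_apply, b.bl_apply, Matrix.map_apply]
  simp only [Matrix.mul_apply, Matrix.transpose_apply, Matrix.map_apply, cK, map_sum,
    Finset.sum_mul]
  refine Finset.sum_congr rfl fun j _ => Finset.sum_congr rfl fun k _ => ?_
  have h1 : ((b.P i x k : ℚ) : K) * X k j * ((b.P i y j : ℚ) : K) =
      (b.P i x k * b.P i y j) • X k j := by
    rw [Rat.smul_def, Rat.cast_mul]
    ring
  rw [h1, map_smul, smul_eq_mul]
  simp only [Rat.cast_id]
  ring

theorem Blocks.bl_cast (X : Matrix B B ℚ) (i : ι) :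
    b.bl K i (cK K X) = cK K (b.bl ℚ i X) := by
  rw [b.bl_apply, b.bl_apply, cK_mul, cK_mul, cK_transpose]
  congr 1

end blocks

end Pool.Agent.W437.HP
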