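import Mathlib
import Pool.Agent.W437.HP.Blk
import Pool.Agent.W437.HC.Casimir

/-!
# The image of the Lie algebra of a product in the Lie algebra of a factor is an ideal
-/

set_option linter.unusedSectionVars false

namespace Pool.Agent.W437.HP

open Matrix Pool.Agent.W437.HC Pool.Agent.W437.HD

section proj

variable {B : Type*} [Fintype B] [DecidableEq B]

/-- The projection to a Lie algebra on which the trace form is nondegenerate. -/
theorem exists_proj (L : Submodule ℚ (Matrix B B ℚ))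
    (hL : ∀ X ∈ L, ∀ Y ∈ L, X * Y - Y * X ∈ L)
    (hnd : ∀ X ∈ L, (∀ Y ∈ L, trace (X * Y) = 0) → X = 0) :
    ∃ p : Matrix B B ℚ →ₗ[ℚ] Matrix B B ℚ, (∀ A, p A ∈ L) ∧ (∀ A ∈ L, p A = A) ∧
      ∀ X ∈ L, ∀ A, p (X * A - A * X) = X * p A - p A * X := by
  classical
  have hdisj : Disjoint L ((trF B).orthogonal L) := by
    rw [Submodule.disjoint_def]
    intro X hX hX'
    refine hnd X hX fun Y hY => ?_
    have h1 := hX' Y hY
    change trF B Y X = 0 at h1
    rw [trF_apply, trace_mul_comm] at h1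
    exact h1
  have hc : IsCompl L ((trF B).orthogonal L) :=
    (LinearMap.BilinForm.isCompl_orthogonal_iff_disjoint trF_refl).2 hdisj
  refine ⟨L.projection _ hc, fun A => Submodule.projection_apply_mem hc A,
    fun A hA => Submodule.projection_apply_of_mem_left hc hA, fun X hX A => ?_⟩
  set p := L.projection _ hc with hp
  have h1 : A - p A ∈ (trF B).orthogonal L := by
    rw [← Submodule.projection_apply_eq_zero_iff hc, map_sub, ← hp]
    rw [sub_eq_zero]
    exact (Submodule.projection_apply_of_mem_left hc (Submodule.projection_apply_mem hc A)).symm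
  have h2 : X * (A - p A) - (A - p A) * X ∈ (trF B).orthogonal L := by
    intro Y hY
    change trF B Y _ = 0
    rw [trF_apply]
    have h3 := h1 (Y * X - X * Y) (hL Y hY X hX)
    change trF B _ _ = 0 at h3
    rw [trF_apply] at h3
    rw [← h3]
    generalize A - p A = C
    rw [mul_sub, sub_mul, trace_sub, trace_sub, mul_assoc, ← mul_assoc Y C X,
      trace_mul_comm (Y * C) X, mul_assoc]
  have h4 : X * A - A * X = (X * p A - p A * X) + (X * (A - p A) - (A - p A) * X) := by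
    noncomm_ring
  rw [h4, map_add, (Submodule.projection_apply_eq_zero_iff hc).2 h2, add_zero]
  exact Submodule.projection_apply_of_mem_left hc
    (hL X hX _ (Submodule.projection_apply_mem hc A))

variable {D : Matrix B B ℂ}

/-- The complex Lie algebra is generated by the rational one. -/
theorem mem_span_rat {X : Matrix B B ℂ} (hX : X ∈ lieM D ℂ) :
    X ∈ Submodule.span ℂ (cK ℂ '' (lieM D ℚ : Set (Matrix B B ℚ))) := by
  have h := mem_span_lam (fun p : B × B => X p.1 p.2)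
  let e : (B × B → ℂ) →ₗ[ℂ] Matrix B B ℂ :=
    { toFun := fun f => Matrix.of fun i j => f (i, j)
      map_add' := fun _ _ => rfl
      map_smul' := fun _ _ => rfl }
  have h1 := Submodule.mem_map_of_mem (f := e) h
  rw [Submodule.map_span] at h1
  refine Submodule.span_mono ?_ h1
  rintro _ ⟨_, ⟨lam, rfl⟩, rfl⟩
  exact ⟨X.map lam, map_mem D hX lam, rfl⟩

theorem cK_rat {m n : Type*} (M : Matrix m n ℚ) : cK ℚ M = M := by
  ext i j
  simp [cK]

end proj

section blocks

variable {B : Type*} [Fintype B] [DecidableEq B] {D : Matrix B B ℂ} {ι : Type}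
    [Fintype ι] [DecidableEq ι] {R : ι → Type} [∀ i, Fintype (R i)] [∀ i, DecidableEq (R i)]
    {D' : ∀ i, Matrix (R i) (R i) ℂ} {Om' : ∀ i, Matrix (R i) (R i) ℚ}
    (b : Blocks B D R D' Om')

/-- The image of the rational Lie algebra is an ideal. -/
theorem Blocks.ideal_rat (i : ι)
    (hnd : ∀ X ∈ (lieM D ℚ).map (b.bl ℚ i),
      (∀ Y ∈ (lieM D ℚ).map (b.bl ℚ i), trace (X * Y) = 0) → X = 0)
    {Y : Matrix (R i) (R i) ℚ} (hY : Y ∈ lieM (D' i) ℚ) {X : Matrix (R i) (R i) ℚ}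
    (hX : X ∈ (lieM D ℚ).map (b.bl ℚ i)) : Y * X - X * Y ∈ (lieM D ℚ).map (b.bl ℚ i) := by
  have hsp : ∀ X ∈ lieM (D' i) ℚ, Xᵀ * Om' i + Om' i * X = 0 := by
    intro X hX
    have h := lieM_bil _ (isH_bilc _ (b.sp i)) hX
    change Xᵀ * cK ℚ (Om' i) + cK ℚ (Om' i) * X = 0 at h
    rwa [cK_rat] at h
  obtain ⟨p, hp1, hp2, hp3⟩ := exists_proj ((lieM D ℚ).map (b.bl ℚ i)) (by
    rintro _ ⟨X, hX, rfl⟩ _ ⟨Y, hY, rfl⟩
    exact ⟨X * Y - Y * X, lieM_bracket D hX hY, b.bl_bracket hX hY i⟩) hnd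
  have hkill : ∀ X ∈ (lieM D ℚ).map (b.bl ℚ i), act X (theta p (Om' i)) = 0 := by
    intro X hX
    refine act_theta_eq_zero ?_ (hp3 X hX)
    obtain ⟨X, hX, rfl⟩ := hX
    exact hsp _ (b.bl_mem hX i)
  have hH : IsH (D' i) (theta p (Om' i)) := by
    funext I
    apply eq_zero_of_lam
    intro lam
    rw [lam_act, ← b.bl_D i, ← b.bl_map, hkill _ ⟨_, map_mem D (D_mem D) lam, rfl⟩]
    rfl
  have h1 : act Y (theta p (Om' i)) = 0 := by
    have h2 := lieM_kills (D' i) hY hH
    have h3 : cst ℚ (theta p (Om' i)) = theta p (Om' i) := by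
      funext J
      simp [cst]
    rwa [h3] at h2
  have h2 := comm_of_act (b.unit i) (hsp Y hY) h1 X
  rw [hp2 X hX] at h2
  rw [← h2]
  exact hp1 _

/-- The image of the complex Lie algebra is an ideal. -/
theorem Blocks.ideal_C (i : ι)
    (hnd : ∀ X ∈ (lieM D ℚ).map (b.bl ℚ i),
      (∀ Y ∈ (lieM D ℚ).map (b.bl ℚ i), trace (X * Y) = 0) → X = 0)
    {Y : Matrix (R i) (R i) ℂ} (hY : Y ∈ lieM (D' i) ℂ) {X : Matrix (R i) (R i) ℂ}
    (hX : X ∈ (lieM D ℂ).map (b.bl ℂ i)) : Y * X - X * Y ∈ (lieM D ℂ).map (b.bl ℂ i) := by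
  obtain ⟨X, hX, rfl⟩ := hX
  have hY' := mem_span_rat hY
  have hX' := mem_span_rat hX
  clear hY hX
  induction hY' using Submodule.span_induction with
  | mem Y hY =>
    obtain ⟨Y, hY, rfl⟩ := hY
    induction hX' using Submodule.span_induction with
    | mem X hX =>
      obtain ⟨X, hX, rfl⟩ := hX
      rw [b.bl_cast, ← cK_mul, ← cK_mul]
      obtain ⟨W, hW, hW'⟩ := b.ideal_rat i hnd hY (X := b.bl ℚ i X) ⟨X, hX, rfl⟩
      refine ⟨cK ℂ W, cast_mem D hW, ?_⟩
      rw [b.bl_cast, hW']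
      ext x y
      simp [cK]
    | zero =>
      rw [map_zero, Matrix.mul_zero, Matrix.zero_mul, sub_zero]
      exact Submodule.zero_mem _
    | add X X' _ _ h1 h2 =>
      rw [map_add]
      have h3 : cK ℂ Y * (b.bl ℂ i X + b.bl ℂ i X') - (b.bl ℂ i X + b.bl ℂ i X') * cK ℂ Y =
        (cK ℂ Y * b.bl ℂ i X - b.bl ℂ i X * cK ℂ Y) +
          (cK ℂ Y * b.bl ℂ i X' - b.bl ℂ i X' * cK ℂ Y) := by noncomm_ring
      rw [h3]
      exact Submodule.add_mem _ h1 h2
    | smul a X _ h1 =>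
      rw [map_smul, Matrix.mul_smul, Matrix.smul_mul, ← smul_sub]
      exact Submodule.smul_mem _ _ h1
  | zero =>
    rw [Matrix.mul_zero, Matrix.zero_mul, sub_zero]
    exact Submodule.zero_mem _
  | add Y Y' _ _ h1 h2 =>
    have h3 : (Y + Y') * b.bl ℂ i X - b.bl ℂ i X * (Y + Y') =
      (Y * b.bl ℂ i X - b.bl ℂ i X * Y) + (Y' * b.bl ℂ i X - b.bl ℂ i X * Y') := by
      noncomm_ring
    rw [h3]
    exact Submodule.add_mem _ h1 h2
  | smul a Y _ h1 =>
    rw [Matrix.mul_smul, Matrix.smul_mul, ← smul_sub]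
    exact Submodule.smul_mem _ _ h1

end blocks

end Pool.Agent.W437.HP
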