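import Mathlib
import Pool.Agent.W437.HD.Dec

/-!
# The decomposition of the homology into symplectic blocks, with its projections
-/

set_option linter.unusedSectionVars false

namespace Pool.Agent.W437.HP

open Matrix Pool.Agent.W437.HC Pool.Agent.W437.HD

variable {R : Type} [Fintype R] [DecidableEq R] {D Om : Matrix R R ℂ}

/-- The decomposition of the homology. -/
theorem exists_pieces (hOm : Omᵀ = -Om) (hOu : IsUnit Om)
    (hsp : ∀ X ∈ lieM D ℂ, Xᵀ * Om + Om * X = 0) (htop : UU D Om = ⊤) :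
    ∃ (A : Type) (_ : Fintype A) (_ : DecidableEq A) (N : A → Submodule ℂ (R → ℂ))
      (π : ∀ a, (R → ℂ) →ₗ[ℂ] N a), (∀ y, y = ∑ a, (π a y : R → ℂ)) ∧
      (∀ a, Nontrivial (N a)) ∧ (∀ a, ∀ x ∈ N a, (∀ y ∈ N a, ww Om x y = 0) → x = 0) ∧
      (∀ a, ∀ x ∈ N a, ∀ y ∈ N a, SS Om x y ∈ lieM D ℂ) ∧
      (∀ a, ∀ X ∈ lieM D ℂ, ∀ x ∈ N a, X *ᵥ x ∈ N a) ∧
      (∀ a, ∀ X ∈ lieM D ℂ, ∀ y, (π a (X *ᵥ y) : R → ℂ) = X *ᵥ (π a y : R → ℂ)) := by
  classical
  let 𝒱 : Set (Submodule ℂ (R → ℂ)) := Set.range (fun v : {v // Good D Om v} => VV D Om v.1)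
  let N : 𝒱 → Submodule ℂ (R → ℂ) := Subtype.val
  have hNtop : ⨆ p, N p = ⊤ := by
    rw [← htop]
    unfold UU
    rw [← sSup_range]
    exact (sSup_eq_iSup' _).symm
  have horth : ∀ p q : 𝒱, p ≠ q → ∀ x ∈ N p, ∀ y ∈ N q, ww Om x y = 0 := by
    rintro ⟨_, ⟨v, rfl⟩⟩ ⟨_, ⟨v', rfl⟩⟩ hne x hx y hy
    refine VV_orth hOm hsp v.2 v'.2 (fun h => hne (Subtype.ext h)) hx hy
  have hnd : ∀ p : 𝒱, ∀ x ∈ N p, (∀ y ∈ N p, ww Om y x = 0) → x = 0 := by
    intro p x hx h
    have h1 : ∀ y : R → ℂ, ww Om y x = 0 := by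
      intro y
      have hy : y ∈ ⨆ p, N p := by
        rw [hNtop]
        trivial
      induction hy using Submodule.iSup_induction' with
      | mem q y hy =>
        by_cases hpq : q = p
        · subst hpq
          exact h y hy
        · exact horth q p hpq y hy x hx
      | zero => exact zero_dotProduct _
      | add y z _ _ h1 h2 => rw [ww_add_left, h1, h2, add_zero]
    have h2 : Om *ᵥ x = 0 := by
      funext i
      have h3 := h1 (Pi.single i 1)
      unfold ww at h3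
      rwa [single_one_dotProduct] at h3
    obtain ⟨u, hu⟩ := hOu
    have h3 : ((u⁻¹ : (Matrix R R ℂ)ˣ) : Matrix R R ℂ) *ᵥ (Om *ᵥ x) = x := by
      rw [← hu, mulVec_mulVec, Units.inv_mul, one_mulVec]
    rw [← h3, h2, mulVec_zero]
  have hindep : iSupIndep N := by
    intro p
    rw [Submodule.disjoint_def]
    intro x hx hx2
    apply hnd p x hx
    intro y hy
    have h1 : (⨆ (q) (_ : q ≠ p), N q) ≤ LinearMap.ker (wwL Om y) := by
      refine iSup_le fun q => iSup_le fun hq => ?_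
      intro z hz
      rw [LinearMap.mem_ker, wwL_apply]
      exact horth p q hq.symm y hy z hz
    have h2 := h1 hx2
    rwa [LinearMap.mem_ker, wwL_apply] at h2
  have hne : ∀ p, N p ≠ ⊥ := by
    rintro ⟨_, ⟨v, rfl⟩⟩ h
    have h1 : v.1 ∈ (⊥ : Submodule ℂ (R → ℂ)) := by
      rw [← h]
      exact self_mem_VV v.2
    rw [Submodule.mem_bot] at h1
    obtain ⟨_, w, _, h2⟩ := v.2
    apply h2
    rw [h1]
    exact zero_dotProduct _
  have hfin : Finite 𝒱 := WellFoundedGT.finite_of_iSupIndep hindep hne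
  have : Fintype 𝒱 := Fintype.ofFinite 𝒱
  have hint : DirectSum.IsInternal N :=
    DirectSum.isInternal_submodule_of_iSupIndep_of_iSup_eq_top hindep hNtop
  have hdec : DirectSum.Decomposition N := hint.chooseDecomposition
  have hsum : ∀ y : R → ℂ, ∑ p, (DirectSum.decompose N y p : R → ℂ) = y := by
    intro y
    rw [← DirectSum.sum_support_decompose N y]
    conv_lhs => rw [DirectSum.sum_support_decompose N y]
    symm
    refine Finset.sum_subset (Finset.subset_univ _) fun p _ hp => ?_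
    rw [DFinsupp.notMem_support_iff] at hp
    rw [hp]
    rfl
  have hst : ∀ p : 𝒱, ∀ X ∈ lieM D ℂ, ∀ x ∈ N p, X *ᵥ x ∈ N p := by
    rintro ⟨_, ⟨v, rfl⟩⟩ X hX x hx
    exact VV_stable hOm hsp v.2 hX hx
  refine ⟨𝒱, inferInstance, inferInstance, N,
    fun p => (DirectSum.component ℂ 𝒱 (fun p => N p) p) ∘ₗ
      (DirectSum.decomposeLinearEquiv N).toLinearMap, fun y => (hsum y).symm,
    fun p => Submodule.nontrivial_iff_ne_bot.2 (hne p), ?_, ?_, hst, ?_⟩
  · intro p x hx h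
    refine hnd p x hx fun y hy => ?_
    rw [ww_anti hOm, h y hy, neg_zero]
  · rintro ⟨_, ⟨v, rfl⟩⟩ x hx y hy
    exact VV_pair hOm hsp v.2 hx hy
  · intro p X hX y
    change (DirectSum.decompose N (X *ᵥ y) p : R → ℂ) = X *ᵥ (DirectSum.decompose N y p : R → ℂ)
    conv_lhs => rw [← hsum y, mulVec_sum, DirectSum.decompose_sum]
    rw [DFinsupp.finsetSum_apply, AddSubmonoidClass.coe_finsetSum, Finset.sum_eq_single p]
    · exact DirectSum.decompose_of_mem_same N (hst p X hX _ (DirectSum.decompose N y p).2)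
    · intro q _ hq
      exact DirectSum.decompose_of_mem_ne N (hst q X hX _ (DirectSum.decompose N y q).2) hq
    · intro h
      exact absurd (Finset.mem_univ _) h

end Pool.Agent.W437.HP
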