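import Mathlib
import Pool.Agent.W437.HP.Ideal
import Pool.Agent.W437.HP.Pieces
import Pool.Agent.W437.HP.Sys

/-!
# Forms on a product whose factors decompose into symplectic blocks
-/

set_option linter.unusedSectionVars false

namespace Pool.Agent.W437.HP

open Matrix Pool.Agent.W437.HC Pool.Agent.W437.HD

section restrict

variable {R : Type} [Fintype R] [DecidableEq R] {D : Matrix R R ℂ} (N : Submodule ℂ (R → ℂ))
  (hst : ∀ X ∈ lieM D ℂ, ∀ x ∈ N, X *ᵥ x ∈ N)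

/-- The action on a stable subspace. -/
def rsN : lieM D ℂ →ₗ[ℂ] Module.End ℂ N where
  toFun X := (Matrix.mulVecLin X.1).restrict (hst X.1 X.2)
  map_add' X Y := by
    refine LinearMap.ext fun x => Subtype.ext ?_
    exact add_mulVec _ _ _
  map_smul' a X := by
    refine LinearMap.ext fun x => Subtype.ext ?_
    exact smul_mulVec _ _ _

theorem rsN_coe (X : lieM D ℂ) (x : N) : (rsN N hst X x : R → ℂ) = X.1 *ᵥ (x : R → ℂ) := rfl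

/-- The bracket of the Lie algebra. -/
def brL (D : Matrix R R ℂ) (X Y : lieM D ℂ) : lieM D ℂ :=
  ⟨X.1 * Y.1 - Y.1 * X.1, lieM_bracket D X.2 Y.2⟩

theorem rsN_brL (X Y : lieM D ℂ) :
    rsN N hst (brL D X Y) = rsN N hst X * rsN N hst Y - rsN N hst Y * rsN N hst X := by
  refine LinearMap.ext fun x => Subtype.ext ?_
  change (X.1 * Y.1 - Y.1 * X.1) *ᵥ (x : R → ℂ) =
    X.1 *ᵥ (Y.1 *ᵥ (x : R → ℂ)) - Y.1 *ᵥ (X.1 *ᵥ (x : R → ℂ))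
  rw [sub_mulVec, mulVec_mulVec, mulVec_mulVec]

/-- The restriction of the symplectic form. -/
def wN (Om : Matrix R R ℂ) (N : Submodule ℂ (R → ℂ)) : N →ₗ[ℂ] N →ₗ[ℂ] ℂ :=
  (wwL Om).domRestrict₁₂ N N

theorem wN_apply (Om : Matrix R R ℂ) (N : Submodule ℂ (R → ℂ)) (x y : N) :
    wN Om N x y = ww Om (x : R → ℂ) (y : R → ℂ) := rfl

theorem isSp_rsN {Om : Matrix R R ℂ} (hsp : ∀ X ∈ lieM D ℂ, Xᵀ * Om + Om * X = 0)
    (X : lieM D ℂ) : IsSp (wN Om N) (rsN N hst X) := by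
  intro x y
  rw [wN_apply, wN_apply, rsN_coe, rsN_coe]
  have h := hsp X.1 X.2
  unfold ww
  rw [← vecMul_transpose, ← dotProduct_mulVec, mulVec_mulVec, eq_neg_of_add_eq_zero_left h,
    neg_mulVec, dotProduct_neg, mulVec_mulVec]

theorem rsN_SS {Om : Matrix R R ℂ} (x y : N) (h : SS Om (x : R → ℂ) (y : R → ℂ) ∈ lieM D ℂ) :
    rsN N hst ⟨_, h⟩ = EE (wN Om N) x y := by
  refine LinearMap.ext fun u => Subtype.ext ?_
  change SS Om (x : R → ℂ) (y : R → ℂ) *ᵥ (u : R → ℂ) = _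
  rw [SS_vec]
  rfl

end restrict

section glue

variable {B : Type} [Fintype B] [DecidableEq B] {D : Matrix B B ℂ} {ι : Type}
    [Fintype ι] [DecidableEq ι] {R : ι → Type} [∀ i, Fintype (R i)] [∀ i, DecidableEq (R i)]
    {D' : ∀ i, Matrix (R i) (R i) ℂ} {Om' : ∀ i, Matrix (R i) (R i) ℚ}
    (b : Blocks B D R D' Om')

/-- The map to the Lie algebra of a factor. -/
noncomputable def Blocks.blL (i : ι) : lieM D ℂ →ₗ[ℂ] lieM (D' i) ℂ where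
  toFun X := ⟨b.bl ℂ i X.1, b.bl_mem X.2 i⟩
  map_add' X Y := Subtype.ext (map_add (b.bl ℂ i) X.1 Y.1)
  map_smul' a X := Subtype.ext (map_smul (b.bl ℂ i) a X.1)

theorem Blocks.blL_brL (i : ι) (X Y : lieM D ℂ) :
    b.blL i (brL D X Y) = brL (D' i) (b.blL i X) (b.blL i Y) :=
  Subtype.ext (b.bl_bracket X.2 Y.2 i)

/-- The action of the Lie algebra on a piece is the full symplectic Lie algebra. -/
theorem Blocks.full (i : ι)
    (hnd : ∀ X ∈ (lieM D ℚ).map (b.bl ℚ i),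
      (∀ Y ∈ (lieM D ℚ).map (b.bl ℚ i), trace (X * Y) = 0) → X = 0)
    (hOm : (Om' i)ᵀ = -Om' i) (hD2 : D' i * D' i = 1) (N : Submodule ℂ (R i → ℂ))
    (hN1 : Nontrivial N) (hN2 : ∀ x ∈ N, (∀ y ∈ N, ww (cK ℂ (Om' i)) x y = 0) → x = 0)
    (hN3 : ∀ x ∈ N, ∀ y ∈ N, SS (cK ℂ (Om' i)) x y ∈ lieM (D' i) ℂ)
    (hst : ∀ X ∈ lieM (D' i) ℂ, ∀ x ∈ N, X *ᵥ x ∈ N) (x y : N) :
    ∃ X, ((rsN N hst) ∘ₗ b.blL i) X = EE (wN (cK ℂ (Om' i)) N) x y := by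
  have hsp : ∀ X ∈ lieM (D' i) ℂ, Xᵀ * cK ℂ (Om' i) + cK ℂ (Om' i) * X = 0 :=
    fun X hX => lieM_bil _ (isH_bilc _ (b.sp i)) hX
  have hOmC : (cK ℂ (Om' i))ᵀ = -cK ℂ (Om' i) := by
    rw [← cK_transpose, hOm]
    ext i j
    simp [cK]
  have h := ideal_full (w := wN (cK ℂ (Om' i)) N) (ρ := rsN N hst) (br := brL (D' i))
    (fun x => ww_self hOmC _)
    (fun x hx => Subtype.ext (hN2 x.1 x.2 fun y hy => hx ⟨y, hy⟩))
    (rsN_brL N hst) (isSp_rsN N hst hsp)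
    (fun x y => ⟨⟨_, hN3 x.1 x.2 y.1 y.2⟩, rsN_SS N hst x y _⟩)
    (LinearMap.range ((rsN N hst) ∘ₗ b.blL i)) ?_ (A := rsN N hst (b.blL i ⟨D, D_mem D⟩))
    ⟨_, rfl⟩ (isSp_rsN N hst hsp _) ?_ x y
  · exact h
  · rintro X _ ⟨Y, rfl⟩
    obtain ⟨W, hW, hW'⟩ := b.ideal_C i hnd X.2 (X := b.bl ℂ i Y.1) ⟨Y.1, Y.2, rfl⟩
    refine ⟨⟨W, hW⟩, ?_⟩
    rw [LinearMap.comp_apply, LinearMap.comp_apply, ← rsN_brL]
    congr 1
    exact Subtype.ext hW'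
  · intro h0
    obtain ⟨z, hz⟩ := exists_ne (0 : N)
    apply hz
    apply Subtype.ext
    have h1 : (rsN N hst (b.blL i ⟨D, D_mem D⟩) (rsN N hst (b.blL i ⟨D, D_mem D⟩) z) : R i → ℂ) =
        (z : R i → ℂ) := by
      rw [rsN_coe, rsN_coe, mulVec_mulVec]
      have h2 : (b.blL i ⟨D, D_mem D⟩).1 = D' i := b.bl_D i
      rw [h2, hD2, one_mulVec]
    rw [← h1, h0]
    rfl

/-- The forms killed by the operator of the product are linear combinations of products of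
bilinear forms. -/
theorem Blocks.mem_MS
    (hnd : ∀ i, ∀ X ∈ (lieM D ℚ).map (b.bl ℚ i),
      (∀ Y ∈ (lieM D ℚ).map (b.bl ℚ i), trace (X * Y) = 0) → X = 0)
    (hOm : ∀ i, (Om' i)ᵀ = -Om' i) (hD2 : ∀ i, D' i * D' i = 1)
    (htop : ∀ i, UU (D' i) (cK ℂ (Om' i)) = ⊤)
    {m : ℕ} (c : (Fin m × Fin 2 → B) → ℚ) (hc : IsH D c) : c ∈ MS D m := by
  classical
  have hsp : ∀ i, ∀ X ∈ lieM (D' i) ℂ, Xᵀ * cK ℂ (Om' i) + cK ℂ (Om' i) * X = 0 :=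
    fun i X hX => lieM_bil _ (isH_bilc _ (b.sp i)) hX
  have hOmC : ∀ i, (cK ℂ (Om' i))ᵀ = -cK ℂ (Om' i) := by
    intro i
    rw [← cK_transpose, hOm]
    ext i j
    simp [cK]
  have hOu : ∀ i, IsUnit (cK ℂ (Om' i)) := by
    intro i
    obtain ⟨u, hu⟩ := b.unit i
    rw [← hu]
    exact ⟨⟨cK ℂ u.1, cK ℂ u.2, by rw [← cK_mul]; simp [cK_one],
      by rw [← cK_mul]; simp [cK_one]⟩, rfl⟩
  have hp := fun i => exists_pieces (hOmC i) (hOu i) (hsp i) (htop i)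
  choose A hA1 hA2 N π hsum hnt hN2 hN3 hst hπ using hp
  let s : Sys (lieM D ℂ) (brL D) (N := fun a : (Σ i, A i) => ↥(N a.1 a.2)) :=
    { w := fun a => wN (cK ℂ (Om' a.1)) (N a.1 a.2)
      ρ := fun a => (rsN (N a.1 a.2) (hst a.1 a.2)) ∘ₗ b.blL a.1
      alt := fun a x => ww_self (hOmC a.1) _
      nd := fun a x hx => Subtype.ext (hN2 a.1 a.2 x.1 x.2 fun y hy => hx ⟨y, hy⟩)
      brk := fun a X Y => by
        rw [LinearMap.comp_apply, b.blL_brL, rsN_brL]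
        rfl
      sp := fun a X => isSp_rsN (N a.1 a.2) (hst a.1 a.2) (hsp a.1) (b.blL a.1 X)
      full := fun a x y => b.full a.1 (hnd a.1) (hOm a.1) (hD2 a.1) (N a.1 a.2) (hnt a.1 a.2)
        (hN2 a.1 a.2) (hN3 a.1 a.2) (hst a.1 a.2) x y }
  have hntn : ∀ a : (Σ i, A i), Nontrivial ↥(N a.1 a.2) := fun a => hnt a.1 a.2
  refine mem_MS_of_sys s
    (fun a => (Matrix.mulVecLin (cK ℂ (b.P a.1))ᵀ) ∘ₗ (N a.1 a.2).subtype)
    (fun a => (π a.1 a.2) ∘ₗ (Matrix.mulVecLin (cK ℂ (b.P a.1)))) ?_ ?_ ?_ c hc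
  · intro y
    have h1 : y = ∑ i, (cK ℂ (b.P i))ᵀ *ᵥ (cK ℂ (b.P i) *ᵥ y) := by
      conv_lhs => rw [← one_mulVec y, ← b.totK, sum_mulVec]
      exact Finset.sum_congr rfl fun i _ => (mulVec_mulVec _ _ _).symm
    conv_lhs => rw [h1]
    rw [Fintype.sum_sigma]
    refine Finset.sum_congr rfl fun i _ => ?_
    conv_lhs => rw [hsum i (cK ℂ (b.P i) *ᵥ y)]
    rw [mulVec_sum]
    rfl
  · intro a X u
    change X.1 *ᵥ ((cK ℂ (b.P a.1))ᵀ *ᵥ (u : R a.1 → ℂ)) =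
      (cK ℂ (b.P a.1))ᵀ *ᵥ (b.bl ℂ a.1 X.1 *ᵥ (u : R a.1 → ℂ))
    rw [mulVec_mulVec, mulVec_mulVec, b.mul_inc X.2]
  · intro a X y
    apply Subtype.ext
    change (π a.1 a.2 (cK ℂ (b.P a.1) *ᵥ (X.1 *ᵥ y)) : R a.1 → ℂ) =
      b.bl ℂ a.1 X.1 *ᵥ (π a.1 a.2 (cK ℂ (b.P a.1) *ᵥ y) : R a.1 → ℂ)
    rw [mulVec_mulVec, b.prj_mul X.2, ← mulVec_mulVec, hπ a.1 a.2 _ (b.bl_mem X.2 a.1)]

end glue

end Pool.Agent.W437.HP
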