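import Mathlib
import Pool.Agent.W437.HP.Glue
import Pool.Agent.W437.HD.Gen
import Pool.Agent.W437.HD.Var

/-!
# The period matrix of a product
-/

set_option linter.unusedSectionVars false

namespace Pool.Agent.W437.HP

open Matrix Pool.Agent.W437.HC Pool.Agent.W437.HD

section aniso

variable {g : ℕ} {Z : Matrix (Fin g) (Fin g) ℂ}

/-- The trace form is anisotropic in a twisted sense on the real symplectic Lie algebra. -/
theorem real_aniso (hZ : Zᵀ = Z) (hpos : (imM Z).PosDef)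
    {XR : Matrix (Fin g ⊕ Fin g) (Fin g ⊕ Fin g) ℝ} (hsp : XRᵀ * Om g ℝ + Om g ℝ * XR = 0)
    (h3 : trace (XR * (JR Z * XR * JR Z)) = 0) : XR = 0 := by
  have hu : IsUnit (imM Z).det := hpos.isUnit.map Matrix.detMonoidHom
  set J := JR Z
  have hJ : J * J = -1 := JR_sq hu
  have hH := OmJ_posDef hZ hpos
  obtain ⟨y, hy, hyy⟩ := exists_sqrt hH
  rw [star_eq_conjTranspose, conjTranspose_eq_transpose_of_trivial] at hyy
  have hJH : J = -(Om g ℝ * (yᵀ * y)) := by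
    rw [← hyy, ← mul_assoc, Om_sq, neg_one_mul, neg_neg]
  have hOX : Om g ℝ * XR = -(XRᵀ * Om g ℝ) := eq_neg_of_add_eq_zero_right hsp
  obtain ⟨yi, hyyi⟩ : ∃ yi, y * yi = 1 := hy.exists_right_inv
  have hyiy : yi * y = 1 := mul_eq_one_comm.1 hyyi
  have hyyiT : yiᵀ * yᵀ = 1 := by rw [← transpose_mul, hyyi, transpose_one]
  have hyiyT : yᵀ * yiᵀ = 1 := by rw [← transpose_mul, hyiy, transpose_one]
  have hJO : J = yi * yiᵀ * (-(Om g ℝ)) := by
    have e1 : (yᵀ * y) * J = -Om g ℝ := by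
      rw [← hyy, mul_assoc, hJ, mul_neg_one]
    have e2 : yi * yiᵀ * ((yᵀ * y) * J) = J := by
      have : yi * yiᵀ * ((yᵀ * y) * J) = yi * ((yiᵀ * yᵀ) * y) * J := by noncomm_ring
      rw [this, hyyiT, one_mul, hyiy, one_mul]
    rw [← e1, e2]
  have h4 : J * XR * J = yi * yiᵀ * XRᵀ * (yᵀ * y) := by
    have e1 : J * XR * J = (yi * yiᵀ * (-(Om g ℝ))) * XR * (-(Om g ℝ * (yᵀ * y))) := by
      rw [← hJO, ← hJH]
    have e2 : (yi * yiᵀ * (-(Om g ℝ))) * XR * (-(Om g ℝ * (yᵀ * y))) =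
        (yi * yiᵀ) * (Om g ℝ * XR) * (Om g ℝ * (yᵀ * y)) := by noncomm_ring
    rw [e1, e2, hOX]
    have e3 : (yi * yiᵀ) * -(XRᵀ * Om g ℝ) * (Om g ℝ * (yᵀ * y)) =
        -((yi * yiᵀ) * XRᵀ * (Om g ℝ * Om g ℝ) * (yᵀ * y)) := by noncomm_ring
    rw [e3, Om_sq]
    noncomm_ring
  rw [h4] at h3
  have h5 : trace ((y * XR * yi)ᴴ * (y * XR * yi)) = 0 := by
    rw [conjTranspose_eq_transpose_of_trivial, trace_mul_comm, transpose_mul, transpose_mul]
    have e1 : y * XR * yi * (yiᵀ * (XRᵀ * yᵀ)) = y * (XR * yi * (yiᵀ * (XRᵀ * yᵀ))) := by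
      noncomm_ring
    rw [e1, trace_mul_comm, ← h3]
    congr 1
    noncomm_ring
  rw [trace_conjTranspose_mul_self_eq_zero_iff] at h5
  have e1 : yi * (y * XR * yi) * y = XR := by
    have : yi * (y * XR * yi) * y = (yi * y) * XR * (yi * y) := by noncomm_ring
    rw [this, hyiy, one_mul, mul_one]
  rw [← e1, h5, mul_zero, zero_mul]

end aniso

section prod

variable {ι : Type} [Fintype ι] [DecidableEq ι] {g : ι → ℕ}

/-- The dimension of the product. -/
abbrev NB (g : ι → ℕ) : ℕ := Fintype.card (Σ i, Fin (g i))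

/-- The numbering of the coordinates. -/
noncomputable def eB (g : ι → ℕ) : (Σ i, Fin (g i)) ≃ Fin (NB g) := Fintype.equivFin _

/-- The projection to the coordinates of a factor. -/
noncomputable def qm (g : ι → ℕ) (K : Type*) [Zero K] [One K] (i : ι) :
    Matrix (Fin (g i)) (Fin (NB g)) K := Matrix.of fun a b => if eB g ⟨i, a⟩ = b then 1 else 0

section field

variable (K : Type*) [Field K]

theorem qm_apply (i : ι) (a : Fin (g i)) (b : Fin (NB g)) :
    qm g K i a b = if eB g ⟨i, a⟩ = b then 1 else 0 := rfl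

theorem qm_same (i : ι) : qm g K i * (qm g K i)ᵀ = 1 := by
  ext a a'
  rw [Matrix.mul_apply, Finset.sum_eq_single (eB g ⟨i, a⟩)]
  · rw [Matrix.transpose_apply, qm_apply, qm_apply, if_pos rfl, one_mul, Matrix.one_apply]
    by_cases h : a = a'
    · rw [if_pos h, if_pos (by rw [h])]
    · rw [if_neg h, if_neg]
      intro h1
      have h2 := (eB g).injective h1
      apply h
      have h3 := (Sigma.mk.inj_iff.1 h2).2
      exact (eq_of_heq h3).symm
  · intro b _ hb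
    rw [qm_apply, if_neg (Ne.symm hb), zero_mul]
  · intro h
    exact absurd (Finset.mem_univ _) h

theorem qm_off {i j : ι} (hij : i ≠ j) : qm g K i * (qm g K j)ᵀ = 0 := by
  ext a a'
  rw [Matrix.mul_apply, Matrix.zero_apply]
  refine Finset.sum_eq_zero fun b _ => ?_
  rw [Matrix.transpose_apply, qm_apply, qm_apply]
  by_cases h : eB g ⟨i, a⟩ = b
  · rw [if_neg (show ¬eB g ⟨j, a'⟩ = b from ?_), mul_zero]
    intro h1
    rw [← h1] at h
    have h2 := (eB g).injective h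
    exact hij (Sigma.mk.inj_iff.1 h2).1
  · rw [if_neg h, zero_mul]

theorem qm_tot : ∑ i, (qm g K i)ᵀ * qm g K i = 1 := by
  ext b b'
  rw [Matrix.sum_apply, Matrix.one_apply]
  simp only [Matrix.mul_apply, Matrix.transpose_apply]
  rw [← Fintype.sum_sigma (fun x : (Σ i, Fin (g i)) => qm g K x.1 x.2 b * qm g K x.1 x.2 b'),
    Finset.sum_eq_single ((eB g).symm b)]
  · rw [qm_apply, qm_apply]
    have h : eB g ⟨((eB g).symm b).1, ((eB g).symm b).2⟩ = b := (eB g).apply_symm_apply b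
    rw [h, if_pos rfl, one_mul]
  · intro x _ hx
    rw [qm_apply, if_neg, zero_mul]
    intro h
    apply hx
    rw [← h]
    exact ((eB g).symm_apply_apply x).symm
  · intro h
    exact absurd (Finset.mem_univ _) h

/-- The block diagonal matrix. -/
noncomputable def bigD (M : ∀ i, Matrix (Fin (g i)) (Fin (g i)) K) :
    Matrix (Fin (NB g)) (Fin (NB g)) K := ∑ i, (qm g K i)ᵀ * M i * qm g K i

variable {K}

theorem qm_bigD (M : ∀ i, Matrix (Fin (g i)) (Fin (g i)) K) (i : ι) :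
    qm g K i * bigD K M = M i * qm g K i := by
  unfold bigD
  rw [Matrix.mul_sum, Finset.sum_eq_single i]
  · rw [← Matrix.mul_assoc, ← Matrix.mul_assoc, qm_same, Matrix.one_mul]
  · intro j _ hj
    rw [← Matrix.mul_assoc, ← Matrix.mul_assoc, qm_off K (Ne.symm hj), Matrix.zero_mul,
      Matrix.zero_mul]
  · intro h
    exact absurd (Finset.mem_univ _) h

theorem bigD_symm {M : ∀ i, Matrix (Fin (g i)) (Fin (g i)) K} (hM : ∀ i, (M i)ᵀ = M i) :
    (bigD K M)ᵀ = bigD K M := by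
  unfold bigD
  rw [transpose_sum]
  refine Finset.sum_congr rfl fun i _ => ?_
  rw [transpose_mul, transpose_mul, transpose_transpose, hM, Matrix.mul_assoc]

theorem bigD_map {K' : Type*} [Field K'] (f : K →+ K')
    (M : ∀ i, Matrix (Fin (g i)) (Fin (g i)) K) :
    (bigD K M).map f = bigD K' (fun i => (M i).map f) := by
  have h1 : ∀ i a b x, f (qm g K i a b * x) = qm g K' i a b * f x := by
    intro i a b x
    rw [qm_apply, qm_apply]
    split_ifs
    · rw [one_mul, one_mul]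
    · rw [zero_mul, zero_mul, map_zero]
  have h2 : ∀ i a b x, f (x * qm g K i a b) = f x * qm g K' i a b := by
    intro i a b x
    rw [mul_comm, h1, mul_comm]
  ext b b'
  simp only [bigD, Matrix.map_apply, Matrix.sum_apply, Matrix.mul_apply, map_sum, h1, h2,
    Matrix.transpose_apply]

end field

theorem bigD_posDef {Y : ∀ i, Matrix (Fin (g i)) (Fin (g i)) ℝ} (hY : ∀ i, (Y i).PosDef) :
    (bigD ℝ Y).PosDef := by
  refine PosDef.of_dotProduct_mulVec_pos ?_ fun y hy => ?_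
  · rw [IsHermitian, conjTranspose_eq_transpose_of_trivial]
    exact bigD_symm fun x => by
      have := (hY x).isHermitian
      rwa [IsHermitian, conjTranspose_eq_transpose_of_trivial] at this
  · rw [star_trivial]
    have h1 : y ⬝ᵥ (bigD ℝ Y *ᵥ y) = ∑ i, (qm g ℝ i *ᵥ y) ⬝ᵥ (Y i *ᵥ (qm g ℝ i *ᵥ y)) := by
      unfold bigD
      rw [sum_mulVec, dotProduct_sum]
      refine Finset.sum_congr rfl fun i _ => ?_
      rw [← mulVec_mulVec, ← mulVec_mulVec, dotProduct_mulVec, vecMul_transpose]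
    rw [h1]
    obtain ⟨i0, hi0⟩ : ∃ i, qm g ℝ i *ᵥ y ≠ 0 := by
      by_contra hcon
      push Not at hcon
      apply hy
      have h2 : y = ∑ i, (qm g ℝ i)ᵀ *ᵥ (qm g ℝ i *ᵥ y) := by
        conv_lhs => rw [← one_mulVec y, ← qm_tot ℝ, sum_mulVec]
        exact Finset.sum_congr rfl fun i _ => (mulVec_mulVec _ _ _).symm
      rw [h2]
      exact Finset.sum_eq_zero fun i _ => by rw [hcon i, mulVec_zero]
    refine Finset.sum_pos' (fun i _ => ?_) ⟨i0, Finset.mem_univ _, ?_⟩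
    · by_cases h0 : qm g ℝ i *ᵥ y = 0
      · rw [h0]
        simp
      · have := (hY i).dotProduct_mulVec_pos h0
        rw [star_trivial] at this
        exact this.le
    · have := (hY i0).dotProduct_mulVec_pos hi0
      rw [star_trivial] at this
      exact this

/-- The projection of the homology to that of a factor. -/
noncomputable def pm (g : ι → ℕ) (K : Type*) [Field K] (i : ι) :
    Matrix (Fin (g i) ⊕ Fin (g i)) (Fin (NB g) ⊕ Fin (NB g)) K :=
  fromBlocks (qm g K i) 0 0 (qm g K i)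

theorem cK_pm (K : Type*) [Field K] [CharZero K] (i : ι) : cK K (pm g ℚ i) = pm g K i := by
  ext x y
  rcases x with x | x <;> rcases y with y | y <;> simp [cK, pm, qm_apply, apply_ite]

theorem pm_same (K : Type*) [Field K] (i : ι) : pm g K i * (pm g K i)ᵀ = 1 := by
  unfold pm
  rw [fromBlocks_transpose, fromBlocks_multiply]
  simp [qm_same]

theorem pm_off (K : Type*) [Field K] {i j : ι} (h : i ≠ j) : pm g K i * (pm g K j)ᵀ = 0 := by
  unfold pm
  rw [fromBlocks_transpose, fromBlocks_multiply]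
  simp [qm_off K h]

theorem pm_tot (K : Type*) [Field K] : ∑ i, (pm g K i)ᵀ * pm g K i = 1 := by
  have h1 : ∀ i, (pm g K i)ᵀ * pm g K i =
      fromBlocks ((qm g K i)ᵀ * qm g K i) 0 0 ((qm g K i)ᵀ * qm g K i) := by
    intro i
    unfold pm
    rw [fromBlocks_transpose, fromBlocks_multiply]
    simp
  rw [Finset.sum_congr rfl (fun i _ => h1 i), ← fromBlocks_one, ← qm_tot K]
  ext x y
  rw [Matrix.sum_apply]
  rcases x with x | x <;> rcases y with y | y <;>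
    simp [fromBlocks_apply₁₁, fromBlocks_apply₁₂, fromBlocks_apply₂₁, fromBlocks_apply₂₂,
      Matrix.sum_apply]

variable (Z : ∀ i, Matrix (Fin (g i)) (Fin (g i)) ℂ)

theorem reM_bigD : reM (bigD ℂ Z) = bigD ℝ (fun i => reM (Z i)) :=
  bigD_map (Complex.reAddGroupHom) Z

theorem imM_bigD : imM (bigD ℂ Z) = bigD ℝ (fun i => imM (Z i)) :=
  bigD_map (Complex.imAddGroupHom) Z

theorem imM_bigD_posDef (hpos : ∀ i, (imM (Z i)).PosDef) : (imM (bigD ℂ Z)).PosDef := by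
  rw [imM_bigD]
  exact bigD_posDef hpos

theorem qm_inv (hpos : ∀ i, (imM (Z i)).PosDef) (i : ι) :
    qm g ℝ i * (imM (bigD ℂ Z))⁻¹ = (imM (Z i))⁻¹ * qm g ℝ i := by
  have hu : IsUnit (imM (Z i)).det := (hpos i).isUnit.map Matrix.detMonoidHom
  have hub : IsUnit (imM (bigD ℂ Z)).det :=
    (imM_bigD_posDef Z hpos).isUnit.map Matrix.detMonoidHom
  have h1 : qm g ℝ i * imM (bigD ℂ Z) = imM (Z i) * qm g ℝ i := by
    rw [imM_bigD, qm_bigD]
  have h2 : (imM (Z i))⁻¹ * (qm g ℝ i * imM (bigD ℂ Z)) * (imM (bigD ℂ Z))⁻¹ =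
      (imM (Z i))⁻¹ * qm g ℝ i := by
    rw [Matrix.mul_assoc, Matrix.mul_assoc, mul_nonsing_inv _ hub, Matrix.mul_one]
  rw [← h2, h1, ← Matrix.mul_assoc, nonsing_inv_mul _ hu, Matrix.one_mul]

theorem pm_JR (hpos : ∀ i, (imM (Z i)).PosDef) (i : ι) :
    pm g ℝ i * JR (bigD ℂ Z) = JR (Z i) * pm g ℝ i := by
  have hX : qm g ℝ i * reM (bigD ℂ Z) = reM (Z i) * qm g ℝ i := by
    rw [reM_bigD, qm_bigD]
  have hY : qm g ℝ i * imM (bigD ℂ Z) = imM (Z i) * qm g ℝ i := by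
    rw [imM_bigD, qm_bigD]
  have hP := qm_inv Z hpos i
  unfold pm JR
  rw [fromBlocks_multiply, fromBlocks_multiply]
  simp only [Matrix.zero_mul, Matrix.mul_zero, add_zero, zero_add, Matrix.mul_neg,
    Matrix.mul_sub, Matrix.neg_mul, Matrix.sub_mul]
  have e1 : qm g ℝ i * (reM (bigD ℂ Z) * (imM (bigD ℂ Z))⁻¹) =
      reM (Z i) * (imM (Z i))⁻¹ * qm g ℝ i := by
    rw [← Matrix.mul_assoc, hX, Matrix.mul_assoc, hP, Matrix.mul_assoc]
  have e2 : qm g ℝ i * ((imM (bigD ℂ Z))⁻¹ * reM (bigD ℂ Z)) =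
      (imM (Z i))⁻¹ * reM (Z i) * qm g ℝ i := by
    rw [← Matrix.mul_assoc, hP, Matrix.mul_assoc, hX, Matrix.mul_assoc]
  have e3 : qm g ℝ i * (reM (bigD ℂ Z) * (imM (bigD ℂ Z))⁻¹ * reM (bigD ℂ Z)) =
      reM (Z i) * (imM (Z i))⁻¹ * reM (Z i) * qm g ℝ i := by
    rw [← Matrix.mul_assoc, e1, Matrix.mul_assoc _ _ (reM (bigD ℂ Z)), hX]
    simp only [Matrix.mul_assoc]
  rw [e1, e2, e3, hP, hY]
  simp only [neg_zero, sub_zero, zero_add]

theorem pm_DZ (hpos : ∀ i, (imM (Z i)).PosDef) (i : ι) :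
    cK ℂ (pm g ℚ i) * DZ (bigD ℂ Z) = DZ (Z i) * cK ℂ (pm g ℚ i) := by
  have h1 : cK ℂ (pm g ℚ i) = (pm g ℝ i).map (Complex.ofRealHom) := by
    ext x y
    rcases x with x | x <;> rcases y with y | y <;> simp [cK, pm, qm_apply, apply_ite]
  have h2 := congrArg (fun M => M.map (Complex.ofRealHom)) (pm_JR Z hpos i)
  simp only [Matrix.map_mul] at h2
  rw [h1]
  unfold DZ
  rw [Matrix.mul_smul, Matrix.smul_mul]
  congr 1

/-- The decomposition of the homology of the product. -/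
noncomputable def blocksOf (hZ : ∀ i, (Z i)ᵀ = Z i) (hpos : ∀ i, (imM (Z i)).PosDef) :
    Blocks (Fin (NB g) ⊕ Fin (NB g)) (DZ (bigD ℂ Z)) (fun i => Fin (g i) ⊕ Fin (g i))
      (fun i => DZ (Z i)) (fun i => Om (g i) ℚ) where
  P i := pm g ℚ i
  same _ := pm_same ℚ _
  off _ _ h := pm_off ℚ h
  tot := pm_tot ℚ
  com i := pm_DZ Z hpos i
  unit _ := Om_unit ℚ
  sp i := DZ_sp (hZ i)

theorem blocksOf_J (hZ : ∀ i, (Z i)ᵀ = Z i) (hpos : ∀ i, (imM (Z i)).PosDef) (i : ι) :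
    (blocksOf Z hZ hpos).bl ℝ i (JR (bigD ℂ Z)) = JR (Z i) := by
  rw [Blocks.bl_apply]
  change cK ℝ (pm g ℚ i) * _ * (cK ℝ (pm g ℚ i))ᵀ = _
  rw [cK_pm, pm_JR Z hpos, Matrix.mul_assoc, pm_same, Matrix.mul_one]

/-- The trace form is nondegenerate on the images of the rational Lie algebra. -/
theorem blocksOf_nondeg (hZ : ∀ i, (Z i)ᵀ = Z i) (hpos : ∀ i, (imM (Z i)).PosDef) (i : ι) :
    ∀ X ∈ (lieM (DZ (bigD ℂ Z)) ℚ).map ((blocksOf Z hZ hpos).bl ℚ i),
      (∀ Y ∈ (lieM (DZ (bigD ℂ Z)) ℚ).map ((blocksOf Z hZ hpos).bl ℚ i), trace (X * Y) = 0) →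
        X = 0 := by
  rintro _ ⟨X, hX, rfl⟩ h
  set b := blocksOf Z hZ hpos with hb
  have hub : IsUnit (imM (bigD ℂ Z)).det :=
    (imM_bigD_posDef Z hpos).isUnit.map Matrix.detMonoidHom
  have hXR : cK ℝ X ∈ lieM (DZ (bigD ℂ Z)) ℝ := cast_mem _ hX
  have hJm := JR_mem (bigD ℂ Z)
  have hYm : JR (bigD ℂ Z) * cK ℝ X * JR (bigD ℂ Z) ∈ lieM (DZ (bigD ℂ Z)) ℝ :=
    lieM_conj _ hXR hJm (JR_sq hub)
  have hbY : b.bl ℝ i (JR (bigD ℂ Z) * cK ℝ X * JR (bigD ℂ Z)) =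
      JR (Z i) * cK ℝ (b.bl ℚ i X) * JR (Z i) := by
    rw [b.bl_mul _ hJm, b.bl_mul _ hXR, b.bl_cast, hb, blocksOf_J]
  have h1 : trace (cK ℝ (b.bl ℚ i X) * (JR (Z i) * cK ℝ (b.bl ℚ i X) * JR (Z i))) = 0 := by
    rw [← hbY]
    apply eq_zero_of_lam
    intro lam
    have h3 : lam (trace (cK ℝ (b.bl ℚ i X) *
        b.bl ℝ i (JR (bigD ℂ Z) * cK ℝ X * JR (bigD ℂ Z)))) =
        trace (b.bl ℚ i X * (b.bl ℝ i (JR (bigD ℂ Z) * cK ℝ X * JR (bigD ℂ Z))).map lam) := by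
      simp only [trace, diag_apply, Matrix.mul_apply, map_sum, cK, Matrix.map_apply]
      refine Finset.sum_congr rfl fun i _ => Finset.sum_congr rfl fun j _ => ?_
      rw [← Rat.smul_def, map_smul, smul_eq_mul]
    rw [h3, ← b.bl_map]
    exact h _ ⟨_, map_mem _ hYm lam, rfl⟩
  have h2 : (cK ℝ (b.bl ℚ i X))ᵀ * Om (g i) ℝ + Om (g i) ℝ * cK ℝ (b.bl ℚ i X) = 0 :=
    lie_sp (hZ i) (cast_mem _ (b.bl_mem hX i))
  have h4 := real_aniso (hZ i) (hpos i) h2 h1
  ext x y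
  have h7 := congrFun (congrFun h4 x) y
  change ((b.bl ℚ i X x y : ℚ) : ℝ) = 0 at h7
  exact_mod_cast h7

/-- The forms killed by the operator of the product are linear combinations of products of
bilinear forms. -/
theorem mem_MS_prod (hZ : ∀ i, (Z i)ᵀ = Z i) (hpos : ∀ i, (imM (Z i)).PosDef)
    (htop : ∀ i, UU (DZ (Z i)) (Om (g i) ℂ) = ⊤) {m : ℕ}
    (c : (Fin m × Fin 2 → Fin (NB g) ⊕ Fin (NB g)) → ℚ) (hc : IsH (DZ (bigD ℂ Z)) c) :
    c ∈ MS (DZ (bigD ℂ Z)) m := by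
  have hOm : ∀ i, cK ℂ (Om (g i) ℚ) = Om (g i) ℂ := fun i => Om_map ℂ
  refine (blocksOf Z hZ hpos).mem_MS (blocksOf_nondeg Z hZ hpos) (fun i => Om_transpose ℚ)
    (fun i => DZ_sq ((hpos i).isUnit.map Matrix.detMonoidHom)) (fun i => ?_) c hc
  rw [hOm]
  exact htop i

end prod

end Pool.Agent.W437.HP
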