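import Mathlib
import Pool.Agent.W437.HP.Prod
import Pool.Agent.W437.HK.Main
import Pool.Agent.W437.HD.Crit
import Pool.Agent.W437.HD.Trip

/-!
# Hodge classes on products
-/

set_option linter.unusedSectionVars false

namespace Pool.Agent.W437.HP

open Matrix Pool.Agent.H204R3.CM Pool.Agent.H194R3.CM Pool.Agent.W437.HC Pool.Agent.W437.HD

variable {ι : Type} {g : ι → ℕ}

/-- The rational homology of the product of the abelian varieties with period matrices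
`Z (t 0), …, Z (t (n - 1))`, with its inclusion into the tangent space: in each factor `(a, b)`
goes to `a + Z b`. -/
noncomputable def perFam (Z : ∀ i, Matrix (Fin (g i)) (Fin (g i)) ℂ) {n : ℕ} (t : Fin n → ι) :
    (∀ j, Fin (g (t j)) ⊕ Fin (g (t j)) → ℚ) →+ (∀ j, Fin (g (t j)) → ℂ) where
  toFun w := fun j => perOne (Z (t j)) (w j)
  map_zero' := by
    funext j
    exact map_zero _
  map_add' v w := by
    funext j
    exact map_add _ _ _

theorem perFam_apply (Z : ∀ i, Matrix (Fin (g i)) (Fin (g i)) ℂ) {n : ℕ} (t : Fin n → ι)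
    (w : ∀ j, Fin (g (t j)) ⊕ Fin (g (t j)) → ℚ) (j : Fin n) :
    perFam Z t w j = perOne (Z (t j)) (w j) := rfl

theorem perOne_vec {g : ℕ} (Z : Matrix (Fin g) (Fin g) ℂ) (a b : Fin g → ℚ) :
    perOne Z (Sum.elim a b) = (fun i => ((a i : ℚ) : ℂ)) + Z *ᵥ (fun i => ((b i : ℚ) : ℂ)) := rfl

variable [Fintype ι] [DecidableEq ι]

theorem cast_mulVec {m n : Type*} [Fintype n] (M : Matrix m n ℚ) (v : n → ℚ) :
    (fun i => (((M *ᵥ v) i : ℚ) : ℂ)) = cK ℂ M *ᵥ (fun i => ((v i : ℚ) : ℂ)) := by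
  funext i
  simp [mulVec, dotProduct, cK]

theorem cK_qm (i : ι) : cK ℂ (qm g ℚ i) = qm g ℂ i := by
  ext x y
  simp [cK, qm_apply, apply_ite]

/-- The inclusion of the homology of a product. -/
noncomputable def incH (g : ι → ℕ) {n : ℕ} (t : Fin n → ι) :
    (∀ j, Fin (g (t j)) ⊕ Fin (g (t j)) → ℚ) →ₗ[ℚ]
      (Fin n → Fin (NB g) ⊕ Fin (NB g) → ℚ) where
  toFun w := fun j => (pm g ℚ (t j))ᵀ *ᵥ w j
  map_add' v w := by
    funext j
    exact mulVec_add _ _ _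
  map_smul' a w := by
    funext j
    exact mulVec_smul _ a (w j)

/-- The inclusion of the tangent space of a product. -/
noncomputable def incT (g : ι → ℕ) {n : ℕ} (t : Fin n → ι) :
    (∀ j, Fin (g (t j)) → ℂ) →ₗ[ℂ] (Fin n → Fin (NB g) → ℂ) where
  toFun w := fun j => (qm g ℂ (t j))ᵀ *ᵥ w j
  map_add' v w := by
    funext j
    exact mulVec_add _ _ _
  map_smul' a w := by
    funext j
    exact mulVec_smul _ a (w j)

/-- The projection of the homology. -/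
noncomputable def prH (g : ι → ℕ) {n : ℕ} (t : Fin n → ι) :
    (Fin n → Fin (NB g) ⊕ Fin (NB g) → ℚ) →ₗ[ℚ]
      (∀ j, Fin (g (t j)) ⊕ Fin (g (t j)) → ℚ) where
  toFun w := fun j => pm g ℚ (t j) *ᵥ w j
  map_add' v w := by
    funext j
    exact mulVec_add _ _ _
  map_smul' a w := by
    funext j
    exact mulVec_smul _ a (w j)

/-- The projection of the tangent space. -/
noncomputable def prT (g : ι → ℕ) {n : ℕ} (t : Fin n → ι) :
    (Fin n → Fin (NB g) → ℂ) →ₗ[ℂ] (∀ j, Fin (g (t j)) → ℂ) where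
  toFun w := fun j => qm g ℂ (t j) *ᵥ w j
  map_add' v w := by
    funext j
    exact mulVec_add _ _ _
  map_smul' a w := by
    funext j
    exact mulVec_smul _ a (w j)

variable (Z : ∀ i, Matrix (Fin (g i)) (Fin (g i)) ℂ)

theorem bigD_qmT (i : ι) : bigD ℂ Z * (qm g ℂ i)ᵀ = (qm g ℂ i)ᵀ * Z i := by
  unfold bigD
  rw [Matrix.sum_mul, Finset.sum_eq_single i]
  · rw [Matrix.mul_assoc, qm_same, Matrix.mul_one]
  · intro j _ hj
    rw [Matrix.mul_assoc, qm_off ℂ hj, Matrix.mul_zero]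
  · intro h
    exact absurd (Finset.mem_univ _) h

theorem pr_per {n : ℕ} (t : Fin n → ι) (w : Fin n → Fin (NB g) ⊕ Fin (NB g) → ℚ) :
    perFam Z t (prH g t w) = prT g t (perPow (bigD ℂ Z) n w) := by
  funext j
  rw [perFam_apply]
  obtain ⟨a, ha⟩ : ∃ a : Fin (NB g) → ℚ, a = fun i => w j (Sum.inl i) := ⟨_, rfl⟩
  obtain ⟨b, hb⟩ : ∃ b : Fin (NB g) → ℚ, b = fun i => w j (Sum.inr i) := ⟨_, rfl⟩
  have hw : w j = Sum.elim a b := by
    funext i
    rcases i with i | i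
    · rw [ha]
      rfl
    · rw [hb]
      rfl
  have h1 : prH g t w j = Sum.elim (qm g ℚ (t j) *ᵥ a) (qm g ℚ (t j) *ᵥ b) := by
    change pm g ℚ (t j) *ᵥ w j = _
    rw [hw]
    unfold pm
    rw [fromBlocks_mulVec, Sum.elim_comp_inl, Sum.elim_comp_inr, zero_mulVec, zero_mulVec,
      add_zero, zero_add]
  have h2 : perPow (bigD ℂ Z) n w j = perOne (bigD ℂ Z) (Sum.elim a b) := by
    rw [← hw]
    rfl
  change _ = qm g ℂ (t j) *ᵥ (perPow (bigD ℂ Z) n w j)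
  rw [h1, h2, perOne_vec, perOne_vec, cast_mulVec, cast_mulVec, cK_qm, mulVec_add, mulVec_mulVec,
    mulVec_mulVec, qm_bigD]

theorem inc_per {n : ℕ} (t : Fin n → ι) (w : ∀ j, Fin (g (t j)) ⊕ Fin (g (t j)) → ℚ) :
    perPow (bigD ℂ Z) n (incH g t w) = incT g t (perFam Z t w) := by
  funext j
  obtain ⟨a, ha⟩ : ∃ a : Fin (g (t j)) → ℚ, a = fun i => w j (Sum.inl i) := ⟨_, rfl⟩
  obtain ⟨b, hb⟩ : ∃ b : Fin (g (t j)) → ℚ, b = fun i => w j (Sum.inr i) := ⟨_, rfl⟩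
  have hw : w j = Sum.elim a b := by
    funext i
    rcases i with i | i
    · rw [ha]
      rfl
    · rw [hb]
      rfl
  have h1 : incH g t w j = Sum.elim ((qm g ℚ (t j))ᵀ *ᵥ a) ((qm g ℚ (t j))ᵀ *ᵥ b) := by
    change (pm g ℚ (t j))ᵀ *ᵥ w j = _
    rw [hw]
    unfold pm
    rw [fromBlocks_transpose, fromBlocks_mulVec, Sum.elim_comp_inl, Sum.elim_comp_inr,
      transpose_zero, zero_mulVec, zero_mulVec, add_zero, zero_add]
  have h2 : perPow (bigD ℂ Z) n (incH g t w) j = perOne (bigD ℂ Z) (incH g t w j) := rfl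
  change _ = (qm g ℂ (t j))ᵀ *ᵥ (perFam Z t w j)
  rw [h2, h1, perFam_apply, hw, perOne_vec, perOne_vec, cast_mulVec, cast_mulVec, cK_transpose,
    cK_qm, mulVec_add, mulVec_mulVec, mulVec_mulVec, bigD_qmT]

/-- Hodge classes on products. -/
theorem divisorial_of_top (hZ : ∀ i, (Z i)ᵀ = Z i) (hpos : ∀ i, (imM (Z i)).PosDef)
    (htop : ∀ i, UU (DZ (Z i)) (Om (g i) ℂ) = ⊤) {n m : ℕ} (t : Fin n → ι)
    (f : (∀ j, Fin (g (t j)) ⊕ Fin (g (t j)) → ℚ) [⋀^Fin m × Fin 2]→ₗ[ℚ] ℚ)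
    (hf : IsHodge (perFam Z t) f) : f ∈ divisorial (perFam Z t) m := by
  have hYb : IsUnit (imM (bigD ℂ Z)).det :=
    (imM_bigD_posDef Z hpos).isUnit.map Matrix.detMonoidHom
  have h1 : IsHodge (perPow (bigD ℂ Z) n) (f.compLinearMap (prH g t)) :=
    Pool.Agent.W437.HK.isHodge_pullback (Φ := prT g t) (pr_per Z t) hf
  have h2 := mem_divisorial_of_MS hYb (fun c hc => mem_MS_prod Z hZ hpos htop c hc) _ h1
  have h3 := Pool.Agent.W437.HK.divisorial_pullback (Φ := incT g t) (inc_per Z t) h2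
  have h4 : (f.compLinearMap (prH g t)).compLinearMap (incH g t) = f := by
    ext v
    change f (fun l => prH g t (incH g t (v l))) = f v
    congr 1
    funext l j
    change pm g ℚ (t j) *ᵥ ((pm g ℚ (t j))ᵀ *ᵥ (v l j)) = v l j
    rw [mulVec_mulVec, pm_same, one_mulVec]
  rwa [h4] at h3

/-- The rational homology of the product of the abelian varieties with period matrices
`Z 0, …, Z (n - 1)`, with its inclusion into the tangent space: in each factor `(a, b)` goes to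
`a + Z b`. -/
noncomputable def perProd {n : ℕ} {g : Fin n → ℕ} (Z : ∀ i, Matrix (Fin (g i)) (Fin (g i)) ℂ) :
    (∀ i, Fin (g i) ⊕ Fin (g i) → ℚ) →+ (∀ i, Fin (g i) → ℂ) where
  toFun w := fun i => perOne (Z i) (w i)
  map_zero' := by
    funext i
    exact map_zero _
  map_add' v w := by
    funext i
    exact map_add _ _ _

/-- Hodge classes on products. -/
theorem divisorial_prod {n m : ℕ} {g : Fin n → ℕ} (Z : ∀ i, Matrix (Fin (g i)) (Fin (g i)) ℂ)
    (hZ : ∀ i, (Z i)ᵀ = Z i) (hpos : ∀ i, (imM (Z i)).PosDef)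
    (htop : ∀ i, UU (DZ (Z i)) (Om (g i) ℂ) = ⊤)
    (f : (∀ i, Fin (g i) ⊕ Fin (g i) → ℚ) [⋀^Fin m × Fin 2]→ₗ[ℚ] ℚ)
    (hf : IsHodge (perProd Z) f) : f ∈ divisorial (perProd Z) m :=
  divisorial_of_top Z hZ hpos htop (n := n) (fun i => i) f hf

/-- An element of rank one gives a good vector. -/
theorem good_of_rk {g : ℕ} {Z : Matrix (Fin g) (Fin g) ℂ} (hZ : Zᵀ = Z) (hpos : (imM Z).PosDef)
    {X : Matrix (Fin g ⊕ Fin g) (Fin g ⊕ Fin g) ℂ} (hX : X ∈ lieM (DZ Z) ℂ)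
    (hr : X.rank = 1) : ∃ v, Good (DZ Z) (Om g ℂ) v := by
  obtain ⟨G, hG, hXG, hrk⟩ := symm_of_sp (sp_C hZ _ hX)
  obtain ⟨a, c, ha, hc, hGa⟩ := exists_sq hG (hrk.trans hr)
  refine ⟨a, good_of_sq_gen hZ hpos ha ?_⟩
  have h1 : SS (Om g ℂ) a a = (2 * c⁻¹) • X := by
    unfold SS
    rw [hXG, hGa, smul_mul_assoc, smul_smul, mul_assoc, inv_mul_cancel₀ hc, mul_one, two_smul,
      add_mul]
  rw [h1]
  exact Submodule.smul_mem _ _ hX

end Pool.Agent.W437.HP
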